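import Mathlib
import Pool.Agent.H.MP_59b15d_al.h11d.Indep2
import Pool.Agent.H.MP_59b15d_al.h60e.Hb

set_option autoImplicit false

/-!
# Relations are exact in a central extension which acts faithfully on the centre

Let `π : E →* Γ` be a homomorphism whose kernel acts by scalars and faithfully on `V`, and let `k`
be the degree: the products of `k + 1` of the operators `ρ (A i) - 1` vanish, the products of `k` of
them do not. For `|J| = k` the image `n_J V` of such a product is not zero, and it is fixed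
pointwise by the lifts of the twists which are supported off `J`. So every relation of `Γ` which is
supported on at most four handles lifts to an exact relation of `E` if `k + 4 ≤ g`.
-/

namespace Pool.MP_59b15d_al.H40D

open Module Pool.MP_59b15d_al.H95E Pool.MP_59b15d_al.H93E Pool.MP_59b15d_al.H11D
open Pool.MP_59b15d_al.H60E

variable {F V E : Type*} [Field F] [AddCommGroup V] [Module F V] [Group E]
  {ρ : E →* Module.End F V} {g k : ℕ} {A B C S : ℕ → E}

/-! ### The elements supported on the handles of `X` -/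

/-- The elements which fix `n_J V` for all `J` with `k` elements which are disjoint from `X`. -/
def FF (ρ : E →* Module.End F V) (A : ℕ → E) (g k : ℕ) (X : Finset ℕ) : Subgroup E :=
  ⨅ J : {J : List ℕ // J.Nodup ∧ (∀ j ∈ J, j < g) ∧ J.length = k ∧ ∀ j ∈ J, j ∉ X},
    fx ρ (UJ ρ A J.1)

theorem mem_FF {X : Finset ℕ} {x : E} : x ∈ FF ρ A g k X ↔ ∀ J : List ℕ, J.Nodup →
    (∀ j ∈ J, j < g) → J.length = k → (∀ j ∈ J, j ∉ X) → ∀ v,
      ρ x (np ρ (J.map A) v) = np ρ (J.map A) v := by
  rw [FF, Subgroup.mem_iInf]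
  constructor
  · intro h J h1 h2 h3 h4 v
    exact h ⟨J, h1, h2, h3, h4⟩ _ ⟨v, rfl⟩
  · rintro h ⟨J, h1, h2, h3, h4⟩ _ ⟨v, rfl⟩
    exact h J h1 h2 h3 h4 v

theorem FF_mono {X Y : Finset ℕ} (h : X ⊆ Y) : FF ρ A g k X ≤ FF ρ A g k Y := by
  intro x hx
  rw [mem_FF] at hx ⊢
  exact fun J h1 h2 h3 h4 => hx J h1 h2 h3 fun j hj hX => h4 j hj (h hX)

/-- Conjugates by what commutes with the `A j` off `X`. -/
theorem FF_conj {X : Finset ℕ} {s x : E} (hs : ∀ j, j < g → j ∉ X → Commute s (A j))
    (hx : x ∈ FF ρ A g k X) : s * x * s⁻¹ ∈ FF ρ A g k X := by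
  rw [mem_FF] at hx ⊢
  intro J h1 h2 h3 h4 v
  have hc : ∀ y ∈ J.map A, Commute s y := by
    intro y hy
    obtain ⟨j, hj, rfl⟩ := List.mem_map.1 hy
    exact hs j (h2 j hj) (h4 j hj)
  have hc' : ∀ y ∈ J.map A, Commute s⁻¹ y := fun y hy => (hc y hy).inv_left
  rw [rho_mul, rho_mul, rho_np ρ hc', hx J h1 h2 h3 h4, rho_np ρ hc, rho_inv']

/-- What commutes with the `A j` off `X` and is braided with an element supported on `X`. -/
theorem FF_braid {X : Finset ℕ} {t b : E} (hb : b ∈ FF ρ A g k X)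
    (hcb : ∀ j, j < g → j ∉ X → Commute b (A j)) (hct : ∀ j, j < g → j ∉ X → Commute t (A j))
    (hbr : b * t * b = t * b * t) : t ∈ FF ρ A g k X := by
  have h1 : t = b * t * b * (b * t)⁻¹ := by
    rw [hbr]
    group
  rw [h1]
  exact FF_conj (fun j h2 h3 => (hcb j h2 h3).mul_left (hct j h2 h3)) hb

section gens

variable (L : Lk g A B C S) (hA : ∀ i, g ≤ i → A i = 1) (hk : k < g)
  (h0 : np ρ ((List.range (k + 1)).map A) = 0)
include L hA hk h0

theorem A_FF {X : Finset ℕ} {l : ℕ} (hl : l ∈ X) : A l ∈ FF ρ A g k X := by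
  by_cases hlg : l < g
  · rw [mem_FF]
    intro J h1 h2 h3 h4 v
    have h5 : np ρ ((l :: J).map A) = 0 := by
      refine np_all L (l := List.range (k + 1)) List.nodup_range
        (List.nodup_cons.2 ⟨fun h => h4 l h hl, h1⟩) (fun j hj => ?_) (fun j hj => ?_) ?_ h0
      · have := List.mem_range.1 hj
        omega
      · rcases List.mem_cons.1 hj with rfl | hj
        · exact hlg
        · exact h2 j hj
      · rw [List.length_range, List.length_cons, h3]
    have h6 : np ρ ((l :: J).map A) v = 0 := by rw [h5]; rfl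
    rw [List.map_cons, np_cons, nn_apply, sub_eq_zero] at h6
    exact h6
  · rw [hA l (by omega)]
    exact one_mem _

theorem B_FF {X : Finset ℕ} {l : ℕ} (hl : l ∈ X) : B l ∈ FF ρ A g k X := by
  refine FF_braid (A_FF L hA hk h0 hl) (fun j _ _ => L.AA l j) (fun j _ hj => ?_) (L.brA l)
  exact (L.AB j l (fun h => hj (h ▸ hl))).symm

theorem C_FF {X : Finset ℕ} {l : ℕ} (hl : l ∈ X) : C l ∈ FF ρ A g k X := by
  by_cases h1 : l + 1 < g
  · refine FF_braid (B_FF L hA hk h0 hl) (fun j _ hj => ?_) (fun j _ _ => (L.AC j l).symm)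
      (L.brC l h1)
    exact (L.AB j l (fun h => hj (h ▸ hl))).symm
  · rw [L.Cout l (by omega)]
    exact one_mem _

omit hA hk h0 in
/-- The front arcs are braided with `B l`. -/
theorem fa_brB (l : ℕ) : ∀ d, l + d + 1 < g →
    B l * fa C S l d * B l = fa C S l d * B l * fa C S l d
  | 0, h => L.brC l (by omega)
  | d + 1, h => by
    have ih := fa_brB l d (by omega)
    have h1 : Commute (S (l + d + 1)) (B l) := L.SBo _ _ (by omega) (by omega)
    rw [fa_succ]
    generalize fa C S l d = x at *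
    generalize S (l + d + 1) = s at *
    generalize B l = b at *
    have h2 : b = s⁻¹ * b * s := by
      have h3 := h1.eq
      calc b = s⁻¹ * (s * b) := by group
        _ = _ := by rw [h3]; group
    calc b * (s⁻¹ * x * s) * b = (s⁻¹ * b * s) * (s⁻¹ * x * s) * (s⁻¹ * b * s) := by
          rw [← h2]
      _ = s⁻¹ * (b * x * b) * s := by group
      _ = s⁻¹ * (x * b * x) * s := by rw [ih]
      _ = (s⁻¹ * x * s) * (s⁻¹ * b * s) * (s⁻¹ * x * s) := by group
      _ = _ := by rw [← h2]

theorem fa_FF {X : Finset ℕ} {l d : ℕ} (hd : l + d + 1 < g) (hl : l ∈ X) :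
    fa C S l d ∈ FF ρ A g k X := by
  refine FF_braid (B_FF L hA hk h0 hl) (fun j _ hj => ?_)
    (fun j _ _ => (A_fr L l d hd j).symm) (fa_brB L l d hd)
  exact (L.AB j l (fun h => hj (h ▸ hl))).symm

theorem S_FF (hS : ∀ i, g ≤ i + 1 → S i = 1) {X : Finset ℕ} {i : ℕ} (hl : i ∈ X)
    (hl' : i + 1 ∈ X) : S i ∈ FF ρ A g k X := by
  by_cases hi : i + 1 < g
  · have h2 := eq_mul_inv_of_mul_eq (L.gar i hi).symm
    rw [h2]
    have a := A_FF L hA hk h0 hl
    have a' := A_FF L hA hk h0 hl'
    have b := B_FF L hA hk h0 hl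
    have b' := B_FF L hA hk h0 hl'
    have c := C_FF L hA hk h0 hl
    have e1 := mul_mem (mul_mem (mul_mem (mul_mem b a) (mul_mem c b)) (mul_mem b' c))
      (mul_mem a' b')
    have e2 := mul_mem a' (mul_mem (mul_mem (mul_mem (mul_mem (mul_mem c b) a) c) b) c)
    exact mul_mem (mul_mem e1 e2)
      (inv_mem (mul_mem (pow_mem (mul_mem a b) 3) (pow_mem (mul_mem a' b') 3)))
  · rw [hS i (by omega)]
    exact one_mem _

theorem io_FF {X : Finset ℕ} {l : ℕ} (hl : l ∈ X) : (A l * B l) ^ 3 ∈ FF ρ A g k X :=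
  pow_mem (mul_mem (A_FF L hA hk h0 hl) (B_FF L hA hk h0 hl)) 3

end gens

/-! ### Exactness -/

/-- A homomorphism whose kernel acts by scalars and faithfully. -/
structure Sc {Γ : Type*} [Group Γ] (π : E →* Γ) (ρ : E →* Module.End F V) : Prop where
  sc : ∀ z, π z = 1 → ∃ c : F, ∀ v, ρ z v = c • v
  inj : ∀ z, π z = 1 → (∀ v, ρ z v = v) → z = 1

section exact

variable {Γ : Type*} [Group Γ] {π : E →* Γ}

/-- **Exactness.** Two elements supported on at most four handles are equal if their images are. -/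
theorem FF_exact (Z : Sc π ρ) (L : Lk g A B C S) (hk : k + 4 ≤ g)
    (h1 : np ρ ((List.range k).map A) ≠ 0) {X : Finset ℕ} (hX : X.card ≤ 4) {x y : E}
    (hx : x ∈ FF ρ A g k X) (hy : y ∈ FF ρ A g k X) (hxy : π x = π y) : x = y := by
  have hc : k ≤ (Finset.range g \ X).card := by
    have h2 := Finset.le_card_sdiff X (Finset.range g)
    rw [Finset.card_range] at h2
    omega
  obtain ⟨J, hJ, hJc⟩ := Finset.exists_subset_card_eq hc
  have h3 : ∀ j ∈ J.toList, j < g := fun j hj =>
    Finset.mem_range.1 (Finset.mem_sdiff.1 (hJ (Finset.mem_toList.1 hj))).1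
  have h4 : ∀ j ∈ J.toList, j ∉ X := fun j hj =>
    (Finset.mem_sdiff.1 (hJ (Finset.mem_toList.1 hj))).2
  have h5 : J.toList.length = k := by rw [Finset.length_toList, hJc]
  have h6 : np ρ (J.toList.map A) ≠ 0 := by
    intro h
    apply h1
    exact np_all L (Finset.nodup_toList J) List.nodup_range h3
      (fun j hj => by have := List.mem_range.1 hj; omega) (by rw [h5, List.length_range]) h
  obtain ⟨v, hv⟩ : ∃ v, np ρ (J.toList.map A) v ≠ 0 := by
    by_contra h
    push Not at h
    exact h6 (LinearMap.ext h)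
  have hz : x * y⁻¹ ∈ FF ρ A g k X := mul_mem hx (inv_mem hy)
  have hz1 : π (x * y⁻¹) = 1 := by rw [map_mul, map_inv, hxy, mul_inv_cancel]
  obtain ⟨c, hc⟩ := Z.sc _ hz1
  have h7 := mem_FF.1 hz J.toList (Finset.nodup_toList J) h3 h5 h4 v
  rw [hc] at h7
  have h8 : (c - 1) • np ρ (J.toList.map A) v = 0 := by rw [sub_smul, one_smul, h7, sub_self]
  have h9 : c = 1 := by
    rcases smul_eq_zero.1 h8 with h | h
    · exact sub_eq_zero.1 h
    · exact absurd h hv
  have h10 := Z.inj _ hz1 (fun w => by rw [hc, h9, one_smul])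
  rwa [mul_inv_eq_one] at h10

end exact

end Pool.MP_59b15d_al.H40D
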