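import Mathlib
import Pool.Agent.H.MP_59b15d_al.h73e.Htb
import Pool.Agent.H.MP_59b15d_al.h95g.KN
import Pool.Agent.H.MP_59b15d_al.lin.Lantern
import Pool.Agent.H.MP_59b15d_al.lin.Tr

set_option autoImplicit false
set_option linter.unusedSimpArgs false

/-!
# The pushes of the last handle which are disjoint from the curves of some handles

`PG h K` is generated by the twist `TT h` and by the pushes of the last handle around the curves
`a l`, `q l = b l * (a l)⁻¹ * (b l)⁻¹` of all handles and around the curves `b l` of the handles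
outside `K`. We compute its conjugates by the twists and the swaps of the other handles.
-/

namespace Pool.MP_59b15d_al.H40D

open Pool.MP_59b15d_al.H24T Pool.MP_59b15d_al.H76R Pool.MP_59b15d_al.H73E
open Pool.MP_59b15d_al.H60G Pool.MP_59b15d_al.H95G Pool.MP_59b15d_al.H40L
open FreeGroup (of)

/-! ### The free group -/

section free

/-- The free generator `a l`. -/
def ga (n l : ℕ) : Fr n := if hl : l < n then of (Sum.inl ⟨l, hl⟩) else 1

/-- The free generator `b l`. -/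
def gb (n l : ℕ) : Fr n := if hl : l < n then of (Sum.inr ⟨l, hl⟩) else 1

/-- The element `b l * (a l)⁻¹ * (b l)⁻¹`. -/
def gq (n l : ℕ) : Fr n := gb n l * (ga n l)⁻¹ * (gb n l)⁻¹

variable {n : ℕ}

theorem ga_lt {l : ℕ} (hl : l < n) : ga n l = of (Sum.inl ⟨l, hl⟩) := dif_pos hl
theorem gb_lt {l : ℕ} (hl : l < n) : gb n l = of (Sum.inr ⟨l, hl⟩) := dif_pos hl
theorem ga_ge {l : ℕ} (hl : ¬ l < n) : ga n l = 1 := dif_neg hl
theorem gb_ge {l : ℕ} (hl : ¬ l < n) : gb n l = 1 := dif_neg hl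

theorem gq_ge {l : ℕ} (hl : ¬ l < n) : gq n l = 1 := by
  rw [gq, ga_ge hl, gb_ge hl]
  group

/-- The subgroup generated by the `a l`, the `q l` and the `b l`, `l ∉ K`. -/
def SK (n : ℕ) (K : Finset ℕ) : Subgroup (Fr n) :=
  Subgroup.closure ({x | ∃ l, l < n ∧ (x = ga n l ∨ x = gq n l)} ∪
    {x | ∃ l, l < n ∧ l ∉ K ∧ x = gb n l})

variable {K : Finset ℕ}

theorem ga_mem (K : Finset ℕ) (l : ℕ) : ga n l ∈ SK n K := by
  by_cases hl : l < n
  · exact Subgroup.subset_closure (Or.inl ⟨l, hl, Or.inl rfl⟩)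
  · rw [ga_ge hl]
    exact (SK n K).one_mem

theorem gq_mem (K : Finset ℕ) (l : ℕ) : gq n l ∈ SK n K := by
  by_cases hl : l < n
  · exact Subgroup.subset_closure (Or.inl ⟨l, hl, Or.inr rfl⟩)
  · rw [gq_ge hl]
    exact (SK n K).one_mem

theorem gb_mem {l : ℕ} (h1 : l ∉ K) : gb n l ∈ SK n K := by
  by_cases hl : l < n
  · exact Subgroup.subset_closure (Or.inr ⟨l, hl, h1, rfl⟩)
  · rw [gb_ge hl]
    exact (SK n K).one_mem

theorem SK_le {S : Subgroup (Fr n)} (h1 : ∀ l, l < n → ga n l ∈ S) (h2 : ∀ l, l < n → gq n l ∈ S)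
    (h3 : ∀ l, l < n → l ∉ K → gb n l ∈ S) : SK n K ≤ S := by
  rw [SK, Subgroup.closure_le]
  rintro x (⟨l, hl, rfl | rfl⟩ | ⟨l, hl, hk, rfl⟩)
  · exact h1 l hl
  · exact h2 l hl
  · exact h3 l hl hk

/-- An automorphism mapping one of these subgroups to another. -/
def Pr (f' : MulAut (Fr n)) (K K' : Finset ℕ) : Prop := ∀ y ∈ SK n K, f' y ∈ SK n K'

theorem pr_of {f' : MulAut (Fr n)} {K' : Finset ℕ} (h1 : ∀ l, l < n → f' (ga n l) ∈ SK n K')
    (h2 : ∀ l, l < n → f' (gq n l) ∈ SK n K') (h3 : ∀ l, l < n → l ∉ K → f' (gb n l) ∈ SK n K') :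
    Pr f' K K' := by
  have h4 : SK n K ≤ (SK n K').comap f'.toMonoidHom := SK_le h1 h2 h3
  exact fun y hy => h4 hy

end free

section surf

variable {n : ℕ} {G : Type*} [Group G] {a b : Fin (n + 1) → G}

theorem Pr.val {h : IsSurf a b} {f' : MulAut (Fr n)} {f : MulAut G} (hp : Pair h f' f)
    {x w : Fr n} (h1 : f (jR a b x) = jR a b w) : f' x = w := by
  apply jR_injective h
  rw [← hp.fj, h1]

/-! ### The pushes -/

/-- The push around `a l`. -/
noncomputable def XA (h : IsSurf a b) (l : ℕ) : MulAut G := XX h (ga n l)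

/-- The push around `b l`. -/
noncomputable def XB (h : IsSurf a b) (l : ℕ) : MulAut G := XX h (gb n l)

/-- The push around `q l`. -/
noncomputable def XQ (h : IsSurf a b) (l : ℕ) : MulAut G :=
  XB h l * (XA h l)⁻¹ * (XB h l)⁻¹

theorem XA_lt (h : IsSurf a b) {l : ℕ} (hl : l < n) : XA h l = XX h (of (Sum.inl ⟨l, hl⟩)) := by
  rw [XA, ga_lt hl]

theorem XB_lt (h : IsSurf a b) {l : ℕ} (hl : l < n) : XB h l = XX h (of (Sum.inr ⟨l, hl⟩)) := by
  rw [XB, gb_lt hl]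

theorem XQ_eq (h : IsSurf a b) (l : ℕ) : XQ h l = XX h (gq n l) := by
  rw [XQ, XA, XB, gq]
  simp only [map_mul, map_inv]

/-- The pushes which are disjoint from the curves of `K`. -/
noncomputable def PG (h : IsSurf a b) (K : Finset ℕ) : Subgroup (MulAut G) :=
  Subgroup.closure (insert (TT h) ({x | ∃ l, l < n ∧ (x = XA h l ∨ x = XQ h l)} ∪
    {x | ∃ l, l < n ∧ l ∉ K ∧ x = XB h l}))

theorem TT_mem_PG (h : IsSurf a b) (K : Finset ℕ) : TT h ∈ PG h K :=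
  Subgroup.subset_closure (Set.mem_insert _ _)

theorem XX_mem_PG (h : IsSurf a b) {K : Finset ℕ} {y : Fr n} (hy : y ∈ SK n K) :
    XX h y ∈ PG h K := by
  have h1 : SK n K ≤ (PG h K).comap (XX h) := by
    apply SK_le
    · intro l hl
      exact Subgroup.subset_closure (Set.mem_insert_of_mem _ (Or.inl ⟨l, hl, Or.inl rfl⟩))
    · intro l hl
      exact Subgroup.subset_closure
        (Set.mem_insert_of_mem _ (Or.inl ⟨l, hl, Or.inr (XQ_eq h l).symm⟩))
    · intro l hl hk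
      exact Subgroup.subset_closure (Set.mem_insert_of_mem _ (Or.inr ⟨l, hl, hk, rfl⟩))
  exact h1 hy

theorem mem_PG {h : IsSurf a b} {K : Finset ℕ} {x : MulAut G} :
    x ∈ PG h K ↔ ∃ y ∈ SK n K, ∃ k : ℤ, x = XX h y * TT h ^ k := by
  constructor
  · intro hx
    let S : Subgroup (MulAut G) :=
      { carrier := {x | ∃ y ∈ SK n K, ∃ k : ℤ, x = XX h y * TT h ^ k}
        one_mem' := ⟨1, (SK n K).one_mem, 0, by rw [map_one, zpow_zero, mul_one]⟩
        mul_mem' := by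
          rintro _ _ ⟨y, hy, k, rfl⟩ ⟨z, hz, l, rfl⟩
          refine ⟨y * z, (SK n K).mul_mem hy hz, k + l, ?_⟩
          have h2 := ((TT_XX h z).zpow_left k).eq
          rw [map_mul, zpow_add]
          calc XX h y * TT h ^ k * (XX h z * TT h ^ l) =
              XX h y * (TT h ^ k * XX h z) * TT h ^ l := by group
            _ = _ := by rw [h2]; group
        inv_mem' := by
          rintro _ ⟨y, hy, k, rfl⟩
          refine ⟨y⁻¹, (SK n K).inv_mem hy, -k, ?_⟩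
          have h2 := ((TT_XX h y).zpow_left k).inv_inv.eq
          rw [mul_inv_rev, h2, map_inv, zpow_neg] }
    have hle : PG h K ≤ S := by
      rw [PG, Subgroup.closure_le]
      rintro x (rfl | ⟨l, hl, rfl | rfl⟩ | ⟨l, hl, hk, rfl⟩)
      · exact ⟨1, (SK n K).one_mem, 1, by rw [map_one, zpow_one, one_mul]⟩
      · exact ⟨_, ga_mem K l, 0, by rw [zpow_zero, mul_one]; rfl⟩
      · exact ⟨_, gq_mem K l, 0, by rw [zpow_zero, mul_one, XQ_eq]⟩
      · exact ⟨_, gb_mem hk, 0, by rw [zpow_zero, mul_one]; rfl⟩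
    exact hle hx
  · rintro ⟨y, hy, k, rfl⟩
    exact (PG h K).mul_mem (XX_mem_PG h hy) ((PG h K).zpow_mem (TT_mem_PG h K) k)

theorem conj_PG {h : IsSurf a b} {f' : MulAut (Fr n)} {f : MulAut G} (hp : Pair h f' f)
    {K K' : Finset ℕ} (hP : Pr f' K K') {x : MulAut G} (hx : x ∈ PG h K) :
    f * x * f⁻¹ ∈ PG h K' := by
  obtain ⟨y, hy, k, rfl⟩ := mem_PG.1 hx
  obtain ⟨l, hl⟩ := hp.fX y
  have h1 := (comm_TT h hp.fj hp.fa hp.fb).zpow_right k
  rw [mem_PG]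
  refine ⟨f' y, hP y hy, l + k, ?_⟩
  rw [zpow_add]
  calc f * (XX h y * TT h ^ k) * f⁻¹ = f * XX h y * f⁻¹ * (f * TT h ^ k) * f⁻¹ := by group
    _ = _ := by rw [h1.eq, hl]; group

theorem conj_PG' {h : IsSurf a b} {f' : MulAut (Fr n)} {f : MulAut G} (hp : Pair h f' f)
    {K K' : Finset ℕ} (hP : Pr f'⁻¹ K K') {x : MulAut G} (hx : x ∈ PG h K) :
    f⁻¹ * x * f ∈ PG h K' := by
  have h1 := conj_PG hp.inv hP hx
  rwa [inv_inv] at h1

/-! ### The values on the free generators -/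

variable (h : IsSurf a b)

theorem mr_TA (i : Fin n) : TA h i.castSucc ∈ MR h 0 n := TA_mem h _ (Nat.zero_le _) i.2
theorem mr_TB (i : Fin n) : TB h i.castSucc ∈ MR h 0 n := TB_mem h _ (Nat.zero_le _) i.2
theorem mr_CC {i j : Fin n} (hij : (j : ℕ) = i + 1) :
    CC h i.castSucc j.castSucc hij ∈ MR h 0 n := by
  have h1 : RR h i.castSucc ∈ MR h 0 n :=
    (MR h 0 n).mul_mem ((MR h 0 n).mul_mem ((MR h 0 n).inv_mem (mr_TA h i)) (mr_TB h i))
      ((MR h 0 n).inv_mem (mr_TA h i))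
  exact (MR h 0 n).mul_mem ((MR h 0 n).mul_mem ((MR h 0 n).inv_mem h1)
    (TC_mem h _ _ _ (Nat.zero_le _) j.2)) h1

theorem mr_SW {i j : Fin n} (hij : (j : ℕ) = i + 1) :
    SW h i.castSucc j.castSucc hij ∈ MR h 0 n := by
  refine MR_mono h (Nat.zero_le _) ?_ (SW_mem h _)
  have h1 := j.2
  change (i : ℕ) + 2 ≤ n
  omega

/-- The half twist of the handle `i`. -/
noncomputable def II (h : IsSurf a b) (i : Fin n) : MulAut G :=
  ((TA h i.castSucc)⁻¹ * TB h i.castSucc) ^ 3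

theorem mr_II (i : Fin n) : II h i ∈ MR h 0 n :=
  (MR h 0 n).pow_mem ((MR h 0 n).mul_mem ((MR h 0 n).inv_mem (mr_TA h i)) (mr_TB h i)) 3

theorem II_a (i : Fin n) : II h i (a i.castSucc) = a i.castSucc *
    (b i.castSucc * (a i.castSucc)⁻¹ * (b i.castSucc)⁻¹) * (a i.castSucc)⁻¹ := by
  simp only [II, pow_succ, pow_zero, one_mul, MulAut.mul_apply, map_mul, map_inv, TB_a, TB_b,
    TAi_a, TAi_b]
  group

theorem II_b (i : Fin n) : II h i (b i.castSucc) =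
    a i.castSucc * (b i.castSucc)⁻¹ * (a i.castSucc)⁻¹ := by
  simp only [II, pow_succ, pow_zero, one_mul, MulAut.mul_apply, map_mul, map_inv, TB_a, TB_b,
    TAi_a, TAi_b]
  group

theorem II_a_ne (i : Fin n) {k : Fin (n + 1)} (hk : k ≠ i.castSucc) : II h i (a k) = a k := by
  simp only [II, pow_succ, pow_zero, one_mul, MulAut.mul_apply, TB_a_ne h hk, TAi_a]

theorem II_b_ne (i : Fin n) {k : Fin (n + 1)} (hk : k ≠ i.castSucc) : II h i (b k) = b k := by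
  simp only [II, pow_succ, pow_zero, one_mul, MulAut.mul_apply, TB_b, TAi_b_ne h hk]

section vals

variable {h} {f' : MulAut (Fr n)}

theorem cs_ne {l i : Fin n} (hl : l ≠ i) : l.castSucc ≠ i.castSucc :=
  fun h1 => hl (Fin.castSucc_injective n h1)

/-! #### `TA⁻¹` -/

theorem vA_a {i : Fin n} (hp : Pair h f' (TA h i.castSucc)⁻¹) (l : Fin n) :
    f' (of (Sum.inl l)) = of (Sum.inl l) := by
  apply Pr.val hp
  rw [jR_a, TAi_a]

theorem vA_b {i : Fin n} (hp : Pair h f' (TA h i.castSucc)⁻¹) :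
    f' (of (Sum.inr i)) = of (Sum.inr i) * (of (Sum.inl i))⁻¹ := by
  apply Pr.val hp
  rw [jR_b, TAi_b, map_mul, map_inv, jR_a, jR_b]

theorem vA_b_ne {i : Fin n} (hp : Pair h f' (TA h i.castSucc)⁻¹) {l : Fin n} (hl : l ≠ i) :
    f' (of (Sum.inr l)) = of (Sum.inr l) := by
  apply Pr.val hp
  rw [jR_b, TAi_b_ne h (cs_ne hl)]

/-! #### `TB` -/

theorem vB_a {i : Fin n} (hp : Pair h f' (TB h i.castSucc)) :
    f' (of (Sum.inl i)) = of (Sum.inl i) * of (Sum.inr i) := by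
  apply Pr.val hp
  rw [jR_a, TB_a, map_mul, jR_a, jR_b]

theorem vB_a_ne {i : Fin n} (hp : Pair h f' (TB h i.castSucc)) {l : Fin n} (hl : l ≠ i) :
    f' (of (Sum.inl l)) = of (Sum.inl l) := by
  apply Pr.val hp
  rw [jR_a, TB_a_ne h (cs_ne hl)]

theorem vB_b {i : Fin n} (hp : Pair h f' (TB h i.castSucc)) (l : Fin n) :
    f' (of (Sum.inr l)) = of (Sum.inr l) := by
  apply Pr.val hp
  rw [jR_b, TB_b]

/-! #### `II` -/

theorem vI_a {i : Fin n} (hp : Pair h f' (II h i)) : f' (of (Sum.inl i)) = of (Sum.inl i) *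
    (of (Sum.inr i) * (of (Sum.inl i))⁻¹ * (of (Sum.inr i))⁻¹) * (of (Sum.inl i))⁻¹ := by
  apply Pr.val hp
  simp only [map_mul, map_inv, jR_a, jR_b, II_a]

theorem vI_b {i : Fin n} (hp : Pair h f' (II h i)) : f' (of (Sum.inr i)) =
    of (Sum.inl i) * (of (Sum.inr i))⁻¹ * (of (Sum.inl i))⁻¹ := by
  apply Pr.val hp
  simp only [map_mul, map_inv, jR_a, jR_b, II_b]

theorem vI_a_ne {i : Fin n} (hp : Pair h f' (II h i)) {l : Fin n} (hl : l ≠ i) :
    f' (of (Sum.inl l)) = of (Sum.inl l) := by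
  apply Pr.val hp
  rw [jR_a, II_a_ne h i (cs_ne hl)]

theorem vI_b_ne {i : Fin n} (hp : Pair h f' (II h i)) {l : Fin n} (hl : l ≠ i) :
    f' (of (Sum.inr l)) = of (Sum.inr l) := by
  apply Pr.val hp
  rw [jR_b, II_b_ne h i (cs_ne hl)]

/-! #### `CC` -/

/-- The curve of `CC`. -/
def gcv {n : ℕ} (i j : Fin n) : Fr n :=
  of (Sum.inr i) * (of (Sum.inl i))⁻¹ * (of (Sum.inr i))⁻¹ * of (Sum.inl j)

theorem jR_gcv (i j : Fin n) : jR a b (gcv i j) = cv a b i.castSucc j.castSucc := by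
  rw [gcv, cv]
  simp only [map_mul, map_inv, jR_a, jR_b]

theorem vC_ai {i j : Fin n} {hij : (j : ℕ) = i + 1}
    (hp : Pair h f' (CC h i.castSucc j.castSucc hij)) : f' (of (Sum.inl i)) = of (Sum.inl i) := by
  apply Pr.val hp
  rw [jR_a, CC_ai]

theorem vC_bi {i j : Fin n} {hij : (j : ℕ) = i + 1}
    (hp : Pair h f' (CC h i.castSucc j.castSucc hij)) :
    f' (of (Sum.inr i)) = gcv i j * of (Sum.inr i) := by
  apply Pr.val hp
  rw [map_mul, jR_b, jR_gcv, CC_bi]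

theorem vC_aj {i j : Fin n} {hij : (j : ℕ) = i + 1}
    (hp : Pair h f' (CC h i.castSucc j.castSucc hij)) :
    f' (of (Sum.inl j)) = gcv i j * of (Sum.inl j) * (gcv i j)⁻¹ := by
  apply Pr.val hp
  rw [map_mul, map_mul, map_inv, jR_a, jR_gcv, CC_aj]

theorem vC_bj {i j : Fin n} {hij : (j : ℕ) = i + 1}
    (hp : Pair h f' (CC h i.castSucc j.castSucc hij)) :
    f' (of (Sum.inr j)) = of (Sum.inr j) * (gcv i j)⁻¹ := by
  apply Pr.val hp
  rw [map_mul, map_inv, jR_b, jR_gcv, CC_bj]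

theorem vC_cv {i j : Fin n} {hij : (j : ℕ) = i + 1}
    (hp : Pair h f' (CC h i.castSucc j.castSucc hij)) : f' (gcv i j) = gcv i j := by
  apply Pr.val hp
  rw [jR_gcv, CC_cv]

theorem vC_a_ne {i j : Fin n} {hij : (j : ℕ) = i + 1}
    (hp : Pair h f' (CC h i.castSucc j.castSucc hij)) {l : Fin n} (h1 : l ≠ i) (h2 : l ≠ j) :
    f' (of (Sum.inl l)) = of (Sum.inl l) := by
  apply Pr.val hp
  rw [jR_a, CC_a_ne h _ (cs_ne h1) (cs_ne h2)]

theorem vC_b_ne {i j : Fin n} {hij : (j : ℕ) = i + 1}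
    (hp : Pair h f' (CC h i.castSucc j.castSucc hij)) {l : Fin n} (h1 : l ≠ i) (h2 : l ≠ j) :
    f' (of (Sum.inr l)) = of (Sum.inr l) := by
  apply Pr.val hp
  rw [jR_b, CC_b_ne h _ (cs_ne h1) (cs_ne h2)]

/-! #### `SW` -/

theorem vS_aj {i j : Fin n} {hij : (j : ℕ) = i + 1}
    (hp : Pair h f' (SW h i.castSucc j.castSucc hij)) : f' (of (Sum.inl j)) = of (Sum.inl i) := by
  apply Pr.val hp
  rw [jR_a, jR_a, SW_aj]

theorem vS_bj {i j : Fin n} {hij : (j : ℕ) = i + 1}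
    (hp : Pair h f' (SW h i.castSucc j.castSucc hij)) : f' (of (Sum.inr j)) = of (Sum.inr i) := by
  apply Pr.val hp
  rw [jR_b, jR_b, SW_bj]

theorem vS_ai {i j : Fin n} {hij : (j : ℕ) = i + 1}
    (hp : Pair h f' (SW h i.castSucc j.castSucc hij)) : f' (of (Sum.inl i)) =
    (of (Sum.inl i) * of (Sum.inr i) * (of (Sum.inl i))⁻¹ * (of (Sum.inr i))⁻¹) *
      of (Sum.inl j) *
      (of (Sum.inl i) * of (Sum.inr i) * (of (Sum.inl i))⁻¹ * (of (Sum.inr i))⁻¹)⁻¹ := by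
  apply Pr.val hp
  simp only [map_mul, map_inv, jR_a, jR_b, SW_ai]

theorem vS_bi {i j : Fin n} {hij : (j : ℕ) = i + 1}
    (hp : Pair h f' (SW h i.castSucc j.castSucc hij)) : f' (of (Sum.inr i)) =
    (of (Sum.inl i) * of (Sum.inr i) * (of (Sum.inl i))⁻¹ * (of (Sum.inr i))⁻¹) *
      of (Sum.inr j) *
      (of (Sum.inl i) * of (Sum.inr i) * (of (Sum.inl i))⁻¹ * (of (Sum.inr i))⁻¹)⁻¹ := by
  apply Pr.val hp
  simp only [map_mul, map_inv, jR_a, jR_b, SW_bi]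

theorem vS_a_ne {i j : Fin n} {hij : (j : ℕ) = i + 1}
    (hp : Pair h f' (SW h i.castSucc j.castSucc hij)) {l : Fin n} (h1 : l ≠ i) (h2 : l ≠ j) :
    f' (of (Sum.inl l)) = of (Sum.inl l) := by
  apply Pr.val hp
  rw [jR_a, SW_a_ne h _ (cs_ne h1) (cs_ne h2)]

theorem vS_b_ne {i j : Fin n} {hij : (j : ℕ) = i + 1}
    (hp : Pair h f' (SW h i.castSucc j.castSucc hij)) {l : Fin n} (h1 : l ≠ i) (h2 : l ≠ j) :
    f' (of (Sum.inr l)) = of (Sum.inr l) := by
  apply Pr.val hp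
  rw [jR_b, SW_b_ne h _ (cs_ne h1) (cs_ne h2)]

end vals

/-! ### The subgroups `SK` are preserved -/

section pres

/-- The element `q l`. -/
def fq {n : ℕ} (l : Fin n) : Fr n := of (Sum.inr l) * (of (Sum.inl l))⁻¹ * (of (Sum.inr l))⁻¹

theorem ga_fin {n : ℕ} (l : Fin n) : ga n l = of (Sum.inl l) := ga_lt l.2
theorem gb_fin {n : ℕ} (l : Fin n) : gb n l = of (Sum.inr l) := gb_lt l.2
theorem gq_fin {n : ℕ} (l : Fin n) : gq n l = fq l := by rw [gq, ga_fin, gb_fin, fq]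

theorem am {n : ℕ} (K : Finset ℕ) (l : Fin n) : of (Sum.inl l) ∈ SK n K := by
  rw [← ga_fin]
  exact ga_mem K l

theorem qm {n : ℕ} (K : Finset ℕ) (l : Fin n) : fq l ∈ SK n K := by
  rw [← gq_fin]
  exact gq_mem K l

theorem bm {n : ℕ} {K : Finset ℕ} {l : Fin n} (hl : (l : ℕ) ∉ K) : of (Sum.inr l) ∈ SK n K := by
  rw [← gb_fin]
  exact gb_mem hl

theorem cvm {n : ℕ} (K : Finset ℕ) (i j : Fin n) : gcv i j ∈ SK n K :=
  (SK n K).mul_mem (qm K i) (am K j)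

theorem conj_m {n : ℕ} {K : Finset ℕ} {x y : Fr n} (hx : x ∈ SK n K) (hy : y ∈ SK n K) :
    x * y * x⁻¹ ∈ SK n K := (SK n K).mul_mem ((SK n K).mul_mem hx hy) ((SK n K).inv_mem hx)

theorem conj_m' {n : ℕ} {K : Finset ℕ} {x y : Fr n} (hx : x ∈ SK n K) (hy : y ∈ SK n K) :
    x⁻¹ * y * x ∈ SK n K := (SK n K).mul_mem ((SK n K).mul_mem ((SK n K).inv_mem hx) hy) hx

variable {f' : MulAut (Fr n)} {K K' : Finset ℕ}

theorem pr_fin (h1 : ∀ l : Fin n, f' (of (Sum.inl l)) ∈ SK n K')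
    (h2 : ∀ l : Fin n, f' (fq l) ∈ SK n K')
    (h3 : ∀ l : Fin n, (l : ℕ) ∉ K → f' (of (Sum.inr l)) ∈ SK n K') : Pr f' K K' := by
  apply pr_of
  · intro l hl
    exact (ga_fin (⟨l, hl⟩ : Fin n)) ▸ h1 ⟨l, hl⟩
  · intro l hl
    exact (gq_fin (⟨l, hl⟩ : Fin n)) ▸ h2 ⟨l, hl⟩
  · intro l hl hk
    exact (gb_fin (⟨l, hl⟩ : Fin n)) ▸ h3 ⟨l, hl⟩ hk

theorem pr_inv (h1 : ∀ l : Fin n, ∃ w ∈ SK n K', f' w = of (Sum.inl l))
    (h2 : ∀ l : Fin n, ∃ w ∈ SK n K', f' w = fq l)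
    (h3 : ∀ l : Fin n, (l : ℕ) ∉ K → ∃ w ∈ SK n K', f' w = of (Sum.inr l)) : Pr f'⁻¹ K K' := by
  apply pr_fin
  · intro l
    obtain ⟨w, hw, h4⟩ := h1 l
    rwa [← h4, MulAut.inv_apply_self]
  · intro l
    obtain ⟨w, hw, h4⟩ := h2 l
    rwa [← h4, MulAut.inv_apply_self]
  · intro l hl
    obtain ⟨w, hw, h4⟩ := h3 l hl
    rwa [← h4, MulAut.inv_apply_self]

variable {h}

theorem Pr_A {i : Fin n} (hp : Pair h f' (TA h i.castSucc)⁻¹) (K : Finset ℕ) : Pr f' K K := by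
  have e : ∀ l : Fin n, f' (fq l) = fq l := by
    intro l
    by_cases hl : l = i
    · subst hl
      simp only [fq, map_mul, map_inv, vA_a hp, vA_b hp]
      group
    · simp only [fq, map_mul, map_inv, vA_a hp, vA_b_ne hp hl]
  apply pr_fin
  · intro l
    rw [vA_a hp]
    exact am K l
  · intro l
    rw [e]
    exact qm K l
  · intro l hk
    by_cases hl : l = i
    · subst hl
      rw [vA_b hp]
      exact (SK n K).mul_mem (bm hk) ((SK n K).inv_mem (am K l))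
    · rw [vA_b_ne hp hl]
      exact bm hk

theorem Pr_Ai {i : Fin n} (hp : Pair h f' (TA h i.castSucc)⁻¹) (K : Finset ℕ) :
    Pr f'⁻¹ K K := by
  have e : ∀ l : Fin n, f' (fq l) = fq l := by
    intro l
    by_cases hl : l = i
    · subst hl
      simp only [fq, map_mul, map_inv, vA_a hp, vA_b hp]
      group
    · simp only [fq, map_mul, map_inv, vA_a hp, vA_b_ne hp hl]
  apply pr_inv
  · exact fun l => ⟨_, am K l, vA_a hp l⟩
  · exact fun l => ⟨_, qm K l, e l⟩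
  · intro l hk
    by_cases hl : l = i
    · subst hl
      refine ⟨of (Sum.inr l) * of (Sum.inl l), (SK n K).mul_mem (bm hk) (am K l), ?_⟩
      rw [map_mul, vA_a hp, vA_b hp, inv_mul_cancel_right]
    · exact ⟨_, bm hk, vA_b_ne hp hl⟩

theorem Pr_B {i : Fin n} (hp : Pair h f' (TB h i.castSucc)) {K : Finset ℕ}
    (hi : (i : ℕ) ∉ K) : Pr f' K K := by
  apply pr_fin
  · intro l
    by_cases hl : l = i
    · subst hl
      rw [vB_a hp]
      exact (SK n K).mul_mem (am K l) (bm hi)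
    · rw [vB_a_ne hp hl]
      exact am K l
  · intro l
    by_cases hl : l = i
    · subst hl
      have e : f' (fq l) = (of (Sum.inl l))⁻¹ * (of (Sum.inr l))⁻¹ := by
        simp only [fq, map_mul, map_inv, vB_a hp, vB_b hp]
        group
      rw [e]
      exact (SK n K).mul_mem ((SK n K).inv_mem (am K l)) ((SK n K).inv_mem (bm hi))
    · have e : f' (fq l) = fq l := by
        simp only [fq, map_mul, map_inv, vB_a_ne hp hl, vB_b hp]
      rw [e]
      exact qm K l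
  · intro l hk
    rw [vB_b hp]
    exact bm hk

theorem Pr_Bi {i : Fin n} (hp : Pair h f' (TB h i.castSucc)) {K : Finset ℕ}
    (hi : (i : ℕ) ∉ K) : Pr f'⁻¹ K K := by
  apply pr_inv
  · intro l
    by_cases hl : l = i
    · subst hl
      refine ⟨of (Sum.inl l) * (of (Sum.inr l))⁻¹,
        (SK n K).mul_mem (am K l) ((SK n K).inv_mem (bm hi)), ?_⟩
      rw [map_mul, map_inv, vB_a hp, vB_b hp, mul_inv_cancel_right]
    · exact ⟨_, am K l, vB_a_ne hp hl⟩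
  · intro l
    by_cases hl : l = i
    · subst hl
      refine ⟨of (Sum.inr l) * fq l, (SK n K).mul_mem (bm hi) (qm K l), ?_⟩
      simp only [fq, map_mul, map_inv, vB_a hp, vB_b hp]
      group
    · refine ⟨fq l, qm K l, ?_⟩
      simp only [fq, map_mul, map_inv, vB_a_ne hp hl, vB_b hp]
  · exact fun l hk => ⟨_, bm hk, vB_b hp l⟩

theorem Pr_I {i : Fin n} (hp : Pair h f' (II h i)) (K : Finset ℕ) : Pr f' K K := by
  apply pr_fin
  · intro l
    by_cases hl : l = i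
    · subst hl
      rw [vI_a hp]
      exact conj_m (am K l) (qm K l)
    · rw [vI_a_ne hp hl]
      exact am K l
  · intro l
    by_cases hl : l = i
    · subst hl
      have e : f' (fq l) = of (Sum.inl l) := by
        simp only [fq, map_mul, map_inv, vI_a hp, vI_b hp]
        group
      rw [e]
      exact am K l
    · have e : f' (fq l) = fq l := by
        simp only [fq, map_mul, map_inv, vI_a_ne hp hl, vI_b_ne hp hl]
      rw [e]
      exact qm K l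
  · intro l hk
    by_cases hl : l = i
    · subst hl
      rw [vI_b hp]
      exact conj_m (am K l) ((SK n K).inv_mem (bm hk))
    · rw [vI_b_ne hp hl]
      exact bm hk

theorem Pr_Ii {i : Fin n} (hp : Pair h f' (II h i)) (K : Finset ℕ) : Pr f'⁻¹ K K := by
  apply pr_inv
  · intro l
    by_cases hl : l = i
    · subst hl
      refine ⟨fq l, qm K l, ?_⟩
      simp only [fq, map_mul, map_inv, vI_a hp, vI_b hp]
      group
    · exact ⟨_, am K l, vI_a_ne hp hl⟩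
  · intro l
    by_cases hl : l = i
    · subst hl
      refine ⟨(fq l)⁻¹ * of (Sum.inl l) * fq l, conj_m' (qm K l) (am K l), ?_⟩
      simp only [fq, map_mul, map_inv, vI_a hp, vI_b hp]
      group
    · refine ⟨fq l, qm K l, ?_⟩
      simp only [fq, map_mul, map_inv, vI_a_ne hp hl, vI_b_ne hp hl]
  · intro l hk
    by_cases hl : l = i
    · subst hl
      refine ⟨(fq l)⁻¹ * (of (Sum.inr l))⁻¹ * fq l,
        conj_m' (qm K l) ((SK n K).inv_mem (bm hk)), ?_⟩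
      simp only [fq, map_mul, map_inv, vI_a hp, vI_b hp]
      group
    · exact ⟨_, bm hk, vI_b_ne hp hl⟩

theorem fin_ne {i j : Fin n} (hij : (j : ℕ) = i + 1) : j ≠ i := by
  rintro rfl
  omega

theorem Pr_C {i j : Fin n} {hij : (j : ℕ) = i + 1}
    (hp : Pair h f' (CC h i.castSucc j.castSucc hij)) (K : Finset ℕ) : Pr f' K K := by
  have n1 := fin_ne hij
  apply pr_fin
  · intro l
    by_cases h1 : l = i
    · subst h1
      rw [vC_ai hp]
      exact am K l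
    · by_cases h2 : l = j
      · subst h2
        rw [vC_aj hp]
        exact conj_m (cvm K i l) (am K l)
      · rw [vC_a_ne hp h1 h2]
        exact am K l
  · intro l
    by_cases h1 : l = i
    · subst h1
      have e : f' (fq l) = gcv l j * fq l * (gcv l j)⁻¹ := by
        simp only [fq, map_mul, map_inv, vC_ai hp, vC_bi hp]
        group
      rw [e]
      exact conj_m (cvm K l j) (qm K l)
    · by_cases h2 : l = j
      · subst h2
        have e : f' (fq l) = fq l := by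
          simp only [fq, map_mul, map_inv, vC_aj hp, vC_bj hp]
          group
        rw [e]
        exact qm K l
      · have e : f' (fq l) = fq l := by
          simp only [fq, map_mul, map_inv, vC_a_ne hp h1 h2, vC_b_ne hp h1 h2]
        rw [e]
        exact qm K l
  · intro l hk
    by_cases h1 : l = i
    · subst h1
      rw [vC_bi hp]
      exact (SK n K).mul_mem (cvm K l j) (bm hk)
    · by_cases h2 : l = j
      · subst h2
        rw [vC_bj hp]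
        exact (SK n K).mul_mem (bm hk) ((SK n K).inv_mem (cvm K i l))
      · rw [vC_b_ne hp h1 h2]
        exact bm hk

theorem Pr_Ci {i j : Fin n} {hij : (j : ℕ) = i + 1}
    (hp : Pair h f' (CC h i.castSucc j.castSucc hij)) (K : Finset ℕ) : Pr f'⁻¹ K K := by
  have n1 := fin_ne hij
  apply pr_inv
  · intro l
    by_cases h1 : l = i
    · subst h1
      exact ⟨_, am K l, vC_ai hp⟩
    · by_cases h2 : l = j
      · subst h2
        refine ⟨(gcv i l)⁻¹ * of (Sum.inl l) * gcv i l, conj_m' (cvm K i l) (am K l), ?_⟩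
        simp only [map_mul, map_inv, vC_cv hp, vC_aj hp]
        group
      · exact ⟨_, am K l, vC_a_ne hp h1 h2⟩
  · intro l
    by_cases h1 : l = i
    · subst h1
      refine ⟨(gcv l j)⁻¹ * fq l * gcv l j, conj_m' (cvm K l j) (qm K l), ?_⟩
      simp only [fq, map_mul, map_inv, vC_cv hp, vC_ai hp, vC_bi hp]
      group
    · by_cases h2 : l = j
      · subst h2
        refine ⟨fq l, qm K l, ?_⟩
        simp only [fq, map_mul, map_inv, vC_aj hp, vC_bj hp]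
        group
      · refine ⟨fq l, qm K l, ?_⟩
        simp only [fq, map_mul, map_inv, vC_a_ne hp h1 h2, vC_b_ne hp h1 h2]
  · intro l hk
    by_cases h1 : l = i
    · subst h1
      refine ⟨(gcv l j)⁻¹ * of (Sum.inr l),
        (SK n K).mul_mem ((SK n K).inv_mem (cvm K l j)) (bm hk), ?_⟩
      simp only [map_mul, map_inv, vC_cv hp, vC_bi hp]
      group
    · by_cases h2 : l = j
      · subst h2
        refine ⟨of (Sum.inr l) * gcv i l, (SK n K).mul_mem (bm hk) (cvm K i l), ?_⟩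
        simp only [map_mul, map_inv, vC_cv hp, vC_bj hp]
        group
      · exact ⟨_, bm hk, vC_b_ne hp h1 h2⟩

theorem Pr_S {i j : Fin n} {hij : (j : ℕ) = i + 1}
    (hp : Pair h f' (SW h i.castSucc j.castSucc hij)) {K K' : Finset ℕ}
    (hij' : (i : ℕ) ∈ K' → (j : ℕ) ∈ K) (hji : (j : ℕ) ∈ K' → (i : ℕ) ∈ K)
    (hne : ∀ l, l ≠ (i : ℕ) → l ≠ (j : ℕ) → l ∈ K' → l ∈ K) : Pr f' K K' := by
  have n1 := fin_ne hij
  have ec : of (Sum.inl i) * of (Sum.inr i) * (of (Sum.inl i))⁻¹ * (of (Sum.inr i))⁻¹ =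
      of (Sum.inl i) * fq i := by
    rw [fq]
    group
  have cm : of (Sum.inl i) * fq i ∈ SK n K' := (SK n K').mul_mem (am K' i) (qm K' i)
  apply pr_fin
  · intro l
    by_cases h1 : l = i
    · subst h1
      rw [vS_ai hp, ec]
      exact conj_m cm (am K' j)
    · by_cases h2 : l = j
      · subst h2
        rw [vS_aj hp]
        exact am K' i
      · rw [vS_a_ne hp h1 h2]
        exact am K' l
  · intro l
    by_cases h1 : l = i
    · subst h1
      have e : f' (fq l) = (of (Sum.inl l) * fq l) * fq j * (of (Sum.inl l) * fq l)⁻¹ := by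
        rw [← ec]
        simp only [fq, map_mul, map_inv, vS_ai hp, vS_bi hp]
        group
      rw [e]
      exact conj_m cm (qm K' j)
    · by_cases h2 : l = j
      · subst h2
        have e : f' (fq l) = fq i := by
          simp only [fq, map_mul, map_inv, vS_aj hp, vS_bj hp]
        rw [e]
        exact qm K' i
      · have e : f' (fq l) = fq l := by
          simp only [fq, map_mul, map_inv, vS_a_ne hp h1 h2, vS_b_ne hp h1 h2]
        rw [e]
        exact qm K' l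
  · intro l hk
    by_cases h1 : l = i
    · subst h1
      rw [vS_bi hp, ec]
      exact conj_m cm (bm fun h3 => hk (hji h3))
    · by_cases h2 : l = j
      · subst h2
        rw [vS_bj hp]
        exact bm fun h3 => hk (hij' h3)
      · rw [vS_b_ne hp h1 h2]
        exact bm fun h3 => hk (hne l (fun h4 => h1 (Fin.ext h4)) (fun h4 => h2 (Fin.ext h4)) h3)

theorem Pr_Si {i j : Fin n} {hij : (j : ℕ) = i + 1}
    (hp : Pair h f' (SW h i.castSucc j.castSucc hij)) {K K' : Finset ℕ}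
    (hij' : (i : ℕ) ∈ K' → (j : ℕ) ∈ K) (hji : (j : ℕ) ∈ K' → (i : ℕ) ∈ K)
    (hne : ∀ l, l ≠ (i : ℕ) → l ≠ (j : ℕ) → l ∈ K' → l ∈ K) : Pr f'⁻¹ K K' := by
  have n1 := fin_ne hij
  have ec : of (Sum.inl j) * fq j =
      of (Sum.inl j) * of (Sum.inr j) * (of (Sum.inl j))⁻¹ * (of (Sum.inr j))⁻¹ := by
    rw [fq]
    group
  have cm : of (Sum.inl j) * fq j ∈ SK n K' := (SK n K').mul_mem (am K' j) (qm K' j)
  apply pr_inv
  · intro l
    by_cases h1 : l = i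
    · subst h1
      exact ⟨_, am K' j, vS_aj hp⟩
    · by_cases h2 : l = j
      · subst h2
        refine ⟨(of (Sum.inl l) * fq l)⁻¹ * of (Sum.inl i) * (of (Sum.inl l) * fq l),
          conj_m' cm (am K' i), ?_⟩
        rw [ec]
        simp only [map_mul, map_inv, vS_ai hp, vS_aj hp, vS_bj hp]
        group
      · exact ⟨_, am K' l, vS_a_ne hp h1 h2⟩
  · intro l
    by_cases h1 : l = i
    · subst h1
      refine ⟨fq j, qm K' j, ?_⟩
      simp only [fq, map_mul, map_inv, vS_aj hp, vS_bj hp]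
    · by_cases h2 : l = j
      · subst h2
        refine ⟨(of (Sum.inl l) * fq l)⁻¹ * fq i * (of (Sum.inl l) * fq l),
          conj_m' cm (qm K' i), ?_⟩
        rw [ec]
        simp only [fq, map_mul, map_inv, vS_ai hp, vS_bi hp, vS_aj hp, vS_bj hp]
        group
      · refine ⟨fq l, qm K' l, ?_⟩
        simp only [fq, map_mul, map_inv, vS_a_ne hp h1 h2, vS_b_ne hp h1 h2]
  · intro l hk
    by_cases h1 : l = i
    · subst h1
      exact ⟨_, bm fun h3 => hk (hji h3), vS_bj hp⟩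
    · by_cases h2 : l = j
      · subst h2
        refine ⟨(of (Sum.inl l) * fq l)⁻¹ * of (Sum.inr i) * (of (Sum.inl l) * fq l),
          conj_m' cm (bm fun h3 => hk (hij' h3)), ?_⟩
        rw [ec]
        simp only [map_mul, map_inv, vS_bi hp, vS_aj hp, vS_bj hp]
        group
      · exact ⟨_, bm fun h3 => hk
          (hne l (fun h4 => h1 (Fin.ext h4)) (fun h4 => h2 (Fin.ext h4)) h3), vS_b_ne hp h1 h2⟩

end pres

/-! ### The conjugates of the pushes -/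

section main

theorem TrA_fin {k : ℕ} (hk : k < n) : TrA h k = (TA h (⟨k, hk⟩ : Fin n).castSucc)⁻¹ :=
  TrA_lt h (Nat.lt_succ_of_lt hk)

theorem TrB_fin {k : ℕ} (hk : k < n) : TrB h k = TB h (⟨k, hk⟩ : Fin n).castSucc :=
  TrB_lt h (Nat.lt_succ_of_lt hk)

theorem TrC_fin {k : ℕ} (hk : k + 1 < n) :
    TrC h k = CC h (⟨k, by omega⟩ : Fin n).castSucc (⟨k + 1, hk⟩ : Fin n).castSucc rfl :=
  TrC_lt h (Nat.lt_succ_of_lt hk)

theorem II_fin {k : ℕ} (hk : k < n) : (TrA h k * TrB h k) ^ 3 = II h ⟨k, hk⟩ := by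
  rw [TrA_fin h hk, TrB_fin h hk, II]

/-- `TT h` is the inverse of `TrA h n`. -/
theorem TrA_last : TrA h n = (TT h)⁻¹ := TrA_lt h (Nat.lt_succ_self n)

theorem PG_eq (K : Finset ℕ) : PG h K =
    Subgroup.closure (insert (TrA h n) ({x | ∃ l, l < n ∧ (x = XA h l ∨ x = XQ h l)} ∪
      {x | ∃ l, l < n ∧ l ∉ K ∧ x = XB h l})) := by
  apply le_antisymm
  · rw [PG, Subgroup.closure_le]
    rintro x (rfl | hx)
    · have h1 : TrA h n ∈ Subgroup.closure (insert (TrA h n)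
          ({x | ∃ l, l < n ∧ (x = XA h l ∨ x = XQ h l)} ∪
            {x | ∃ l, l < n ∧ l ∉ K ∧ x = XB h l})) :=
        Subgroup.subset_closure (Set.mem_insert _ _)
      have h2 := Subgroup.inv_mem _ h1
      have h3 : TT h = (TrA h n)⁻¹ := by rw [TrA_last, inv_inv]
      rw [← h3] at h2
      exact h2
    · exact Subgroup.subset_closure (Set.mem_insert_of_mem _ hx)
  · rw [Subgroup.closure_le]
    rintro x (rfl | hx)
    · rw [TrA_last]
      exact (PG h K).inv_mem (TT_mem_PG h K)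
    · exact Subgroup.subset_closure (Set.mem_insert_of_mem _ hx)

theorem PG_mono {K K' : Finset ℕ} (hK : K ⊆ K') : PG h K' ≤ PG h K := by
  rw [PG, PG]
  apply Subgroup.closure_mono
  apply Set.insert_subset_insert
  apply Set.union_subset_union_right
  rintro x ⟨l, hl, hk, rfl⟩
  exact ⟨l, hl, fun h1 => hk (hK h1), rfl⟩

/-- (p1) for `TrA`. -/
theorem TrA_PG {k : ℕ} (hk : k < n) {K : Finset ℕ} {y : MulAut G} (hy : y ∈ PG h K) :
    TrA h k * y * (TrA h k)⁻¹ ∈ PG h K ∧ (TrA h k)⁻¹ * y * TrA h k ∈ PG h K := by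
  rw [TrA_fin h hk]
  obtain ⟨f', hp⟩ := exists_pair h ((MR h 0 n).inv_mem (mr_TA h ⟨k, hk⟩))
  exact ⟨conj_PG hp (Pr_A hp K) hy, conj_PG' hp (Pr_Ai hp K) hy⟩

/-- (p1) for `TrC`. -/
theorem TrC_PG {k : ℕ} (hk : k + 1 < n) {K : Finset ℕ} {y : MulAut G} (hy : y ∈ PG h K) :
    TrC h k * y * (TrC h k)⁻¹ ∈ PG h K ∧ (TrC h k)⁻¹ * y * TrC h k ∈ PG h K := by
  rw [TrC_fin h hk]
  obtain ⟨f', hp⟩ := exists_pair h
    (mr_CC h (i := (⟨k, by omega⟩ : Fin n)) (j := (⟨k + 1, hk⟩ : Fin n)) rfl)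
  exact ⟨conj_PG hp (Pr_C hp K) hy, conj_PG' hp (Pr_Ci hp K) hy⟩

/-- (p1') for the half twists of the handles. -/
theorem io_PG {k : ℕ} (hk : k < n) {K : Finset ℕ} {y : MulAut G} (hy : y ∈ PG h K) :
    (TrA h k * TrB h k) ^ 3 * y * ((TrA h k * TrB h k) ^ 3)⁻¹ ∈ PG h K ∧
      ((TrA h k * TrB h k) ^ 3)⁻¹ * y * (TrA h k * TrB h k) ^ 3 ∈ PG h K := by
  rw [II_fin h hk]
  obtain ⟨f', hp⟩ := exists_pair h (mr_II h ⟨k, hk⟩)
  exact ⟨conj_PG hp (Pr_I hp K) hy, conj_PG' hp (Pr_Ii hp K) hy⟩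

/-- (p2) for `TrB`. -/
theorem TrB_PG {k : ℕ} (hk : k < n) {K : Finset ℕ} (hkK : k ∉ K) {y : MulAut G}
    (hy : y ∈ PG h K) :
    TrB h k * y * (TrB h k)⁻¹ ∈ PG h K ∧ (TrB h k)⁻¹ * y * TrB h k ∈ PG h K := by
  rw [TrB_fin h hk]
  obtain ⟨f', hp⟩ := exists_pair h (mr_TB h ⟨k, hk⟩)
  exact ⟨conj_PG hp (Pr_B hp hkK) hy, conj_PG' hp (Pr_Bi hp hkK) hy⟩

theorem mem_swap {k l : ℕ} {K : Finset ℕ} :
    l ∈ K.map (Equiv.swap k (k + 1)).toEmbedding ↔ Equiv.swap k (k + 1) l ∈ K := by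
  constructor
  · intro h1
    obtain ⟨x, hx, h2⟩ := Finset.mem_map.1 h1
    rw [Equiv.toEmbedding_apply] at h2
    rwa [← h2, Equiv.swap_apply_self]
  · intro h1
    exact Finset.mem_map.2 ⟨_, h1, by rw [Equiv.toEmbedding_apply, Equiv.swap_apply_self]⟩

/-- (p3) for the swaps. -/
theorem SW_PG {k : ℕ} (hk : k + 1 < n) {K : Finset ℕ} {y : MulAut G} (hy : y ∈ PG h K) :
    SW h ⟨k, by omega⟩ ⟨k + 1, by omega⟩ rfl * y * (SW h ⟨k, by omega⟩ ⟨k + 1, by omega⟩ rfl)⁻¹ ∈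
      PG h (K.map (Equiv.swap k (k + 1)).toEmbedding) := by
  obtain ⟨f', hp⟩ := exists_pair h
    (mr_SW h (i := (⟨k, by omega⟩ : Fin n)) (j := (⟨k + 1, hk⟩ : Fin n)) rfl)
  refine conj_PG hp (Pr_S hp ?_ ?_ ?_) hy
  · intro h1
    have h2 := mem_swap.1 h1
    rwa [Equiv.swap_apply_left] at h2
  · intro h1
    have h2 := mem_swap.1 h1
    rwa [Equiv.swap_apply_right] at h2
  · intro l h1 h2 h3
    have h4 := mem_swap.1 h3
    rwa [Equiv.swap_apply_of_ne_of_ne h1 h2] at h4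

/-- (p3) for the inverses of the swaps. -/
theorem SWi_PG {k : ℕ} (hk : k + 1 < n) {K : Finset ℕ} {y : MulAut G}
    (hy : y ∈ PG h (K.map (Equiv.swap k (k + 1)).toEmbedding)) :
    (SW h ⟨k, by omega⟩ ⟨k + 1, by omega⟩ rfl)⁻¹ * y * SW h ⟨k, by omega⟩ ⟨k + 1, by omega⟩ rfl ∈
      PG h K := by
  obtain ⟨f', hp⟩ := exists_pair h
    (mr_SW h (i := (⟨k, by omega⟩ : Fin n)) (j := (⟨k + 1, hk⟩ : Fin n)) rfl)
  refine conj_PG' hp (Pr_Si hp ?_ ?_ ?_) hy
  · intro h1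
    apply mem_swap.2
    change Equiv.swap k (k + 1) (k + 1) ∈ K
    rwa [Equiv.swap_apply_right]
  · intro h1
    apply mem_swap.2
    change Equiv.swap k (k + 1) k ∈ K
    rwa [Equiv.swap_apply_left]
  · intro l h1 h2 h3
    apply mem_swap.2
    rwa [Equiv.swap_apply_of_ne_of_ne h1 h2]

/-! ### Special values -/

/-- The push around the last `q` is a product of two twists, modulo `TT h`. -/
theorem XQ_last {k : ℕ} (hk : k + 1 = n) :
    ∃ j : ℤ, XQ h k = TrA h k * (TrC h k)⁻¹ * TT h ^ j := by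
  subst hk
  let i : Fin (k + 1) := ⟨k, Nat.lt_succ_self k⟩
  have hj : ((Fin.last (k + 1) : Fin (k + 1 + 1)) : ℕ) = i.castSucc + 1 := rfl
  have h0 : TrC h k = CC h i.castSucc (Fin.last (k + 1)) hj := TrC_lt h (by omega)
  have h1 := X0_eq h i hj
  have h2 : RR h i.castSucc ∈ MR h 0 (k + 1) :=
    (MR h 0 (k + 1)).mul_mem ((MR h 0 (k + 1)).mul_mem ((MR h 0 (k + 1)).inv_mem (mr_TA h i))
      (mr_TB h i)) ((MR h 0 (k + 1)).inv_mem (mr_TA h i))
  obtain ⟨g', hp⟩ := exists_pair h ((MR h 0 (k + 1)).inv_mem h2)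
  have h3 : g' (of (Sum.inr i)) = (fq i)⁻¹ := by
    apply Pr.val hp
    simp only [fq, map_mul, map_inv, jR_a, jR_b, RRi_b]
    group
  obtain ⟨l, hl⟩ := hp.fX (of (Sum.inr i))
  rw [h3, XX_b, inv_inv] at hl
  have h4 : (RR h i.castSucc)⁻¹ * TB h i.castSucc * RR h i.castSucc = (TA h i.castSucc)⁻¹ := by
    have h5 := TAi_TB_braid h i.castSucc
    have h6 : TB h i.castSucc * RR h i.castSucc = RR h i.castSucc * (TA h i.castSucc)⁻¹ := by
      rw [RR]
      calc TB h i.castSucc * ((TA h i.castSucc)⁻¹ * TB h i.castSucc * (TA h i.castSucc)⁻¹) =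
          (TB h i.castSucc * (TA h i.castSucc)⁻¹ * TB h i.castSucc) * (TA h i.castSucc)⁻¹ := by
            group
        _ = _ := by rw [← h5]
    rw [mul_assoc, h6, inv_mul_cancel_left]
  have h7 : TrC h k = (XQ h k)⁻¹ * TT h ^ l * TrA h k := by
    rw [h0, H40L.CC, ← h1, XQ_eq, gq_fin i, ← map_inv, ← hl, TrA_fin h (Nat.lt_succ_self k), ← h4]
    group
  refine ⟨l, ?_⟩
  have h8 := ((TT_XX h (gq (k + 1) k)).zpow_left (-l)).eq
  rw [← XQ_eq] at h8
  rw [h7]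
  calc XQ h k = XQ h k * TT h ^ (-l) * TT h ^ l := by group
    _ = TT h ^ (-l) * XQ h k * TT h ^ l := by rw [h8]
    _ = _ := by group

/-- (p4') -/
theorem io_XQ {l : ℕ} (hl : l < n) : ∃ j : ℤ,
    (TrA h l * TrB h l) ^ 3 * XQ h l * ((TrA h l * TrB h l) ^ 3)⁻¹ = XA h l * TT h ^ j := by
  obtain ⟨f', hp⟩ := exists_pair h (mr_II h ⟨l, hl⟩)
  obtain ⟨j, hj⟩ := hp.fX (fq ⟨l, hl⟩)
  refine ⟨j, ?_⟩
  rw [II_fin h hl, XQ_eq, gq_fin (⟨l, hl⟩ : Fin n), hj, XA_lt h hl]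
  congr 2
  simp only [fq, map_mul, map_inv, vI_a hp, vI_b hp]
  group

/-- The push around `a l`, moved by the half twist. -/
theorem io_XA {l : ℕ} (hl : l < n) : ∃ j : ℤ,
    (TrA h l * TrB h l) ^ 3 * XA h l * ((TrA h l * TrB h l) ^ 3)⁻¹ =
      XA h l * XQ h l * (XA h l)⁻¹ * TT h ^ j := by
  obtain ⟨f', hp⟩ := exists_pair h (mr_II h ⟨l, hl⟩)
  obtain ⟨j, hj⟩ := hp.fX (of (Sum.inl ⟨l, hl⟩))
  refine ⟨j, ?_⟩
  rw [II_fin h hl, XQ_eq, gq_fin (⟨l, hl⟩ : Fin n), XA_lt h hl, hj, ← map_mul, ← map_inv,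
    ← map_mul]
  congr 2
  rw [vI_a hp, fq]

/-- (p4'') -/
theorem TrB_XA {l : ℕ} (hl : l < n) : ∃ j : ℤ,
    TrB h l * XA h l * (TrB h l)⁻¹ = XA h l * XB h l * TT h ^ j := by
  obtain ⟨f', hp⟩ := exists_pair h (mr_TB h ⟨l, hl⟩)
  obtain ⟨j, hj⟩ := hp.fX (of (Sum.inl ⟨l, hl⟩))
  refine ⟨j, ?_⟩
  rw [TrB_fin h hl, XA_lt h hl, XB_lt h hl, hj, ← map_mul, vB_a hp]

theorem TrB_XB {l k : ℕ} (hl : l < n) (hk : k < n) : ∃ j : ℤ,
    TrB h l * XB h k * (TrB h l)⁻¹ = XB h k * TT h ^ j := by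
  obtain ⟨f', hp⟩ := exists_pair h (mr_TB h ⟨l, hl⟩)
  obtain ⟨j, hj⟩ := hp.fX (of (Sum.inr ⟨k, hk⟩))
  refine ⟨j, ?_⟩
  rw [TrB_fin h hl, XB_lt h hk, hj, vB_b hp]

theorem TrBA_XQ {l : ℕ} (hl : l < n) : ∃ j : ℤ,
    (TrB h l * TrA h l) * XQ h l * (TrB h l * TrA h l)⁻¹ =
      (XA h l)⁻¹ * (XB h l)⁻¹ * TT h ^ j := by
  obtain ⟨f', hp⟩ := exists_pair h (mr_TB h ⟨l, hl⟩)
  obtain ⟨g', hq⟩ := exists_pair h ((MR h 0 n).inv_mem (mr_TA h ⟨l, hl⟩))
  obtain ⟨j, hj⟩ := (hp.mul hq).fX (fq ⟨l, hl⟩)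
  refine ⟨j, ?_⟩
  rw [TrB_fin h hl, TrA_fin h hl, XQ_eq, gq_fin (⟨l, hl⟩ : Fin n), hj, XA_lt h hl, XB_lt h hl,
    ← map_inv, ← map_inv, ← map_mul]
  congr 2
  rw [MulAut.mul_apply]
  simp only [fq, map_mul, map_inv, vA_a hq, vA_b hq, vB_a hp, vB_b hp]
  group

/-- (p5) -/
theorem SW_XA {k : ℕ} (hk : k + 1 < n) : ∃ j : ℤ,
    SW h ⟨k, by omega⟩ ⟨k + 1, by omega⟩ rfl * XA h (k + 1) *
      (SW h ⟨k, by omega⟩ ⟨k + 1, by omega⟩ rfl)⁻¹ = XA h k * TT h ^ j := by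
  obtain ⟨f', hp⟩ := exists_pair h
    (mr_SW h (i := (⟨k, by omega⟩ : Fin n)) (j := (⟨k + 1, hk⟩ : Fin n)) rfl)
  obtain ⟨j, hj⟩ := hp.fX (of (Sum.inl ⟨k + 1, hk⟩))
  refine ⟨j, ?_⟩
  rw [XA_lt h hk, XA_lt h (by omega : k < n)]
  rw [vS_aj hp] at hj
  exact hj

theorem SW_XB {k : ℕ} (hk : k + 1 < n) : ∃ j : ℤ,
    SW h ⟨k, by omega⟩ ⟨k + 1, by omega⟩ rfl * XB h (k + 1) *
      (SW h ⟨k, by omega⟩ ⟨k + 1, by omega⟩ rfl)⁻¹ = XB h k * TT h ^ j := by
  obtain ⟨f', hp⟩ := exists_pair h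
    (mr_SW h (i := (⟨k, by omega⟩ : Fin n)) (j := (⟨k + 1, hk⟩ : Fin n)) rfl)
  obtain ⟨j, hj⟩ := hp.fX (of (Sum.inr ⟨k + 1, hk⟩))
  refine ⟨j, ?_⟩
  rw [XB_lt h hk, XB_lt h (by omega : k < n)]
  rw [vS_bj hp] at hj
  exact hj

theorem SW_XQ {k : ℕ} (hk : k + 1 < n) : ∃ j : ℤ,
    SW h ⟨k, by omega⟩ ⟨k + 1, by omega⟩ rfl * XQ h (k + 1) *
      (SW h ⟨k, by omega⟩ ⟨k + 1, by omega⟩ rfl)⁻¹ = XQ h k * TT h ^ j := by
  obtain ⟨f', hp⟩ := exists_pair h
    (mr_SW h (i := (⟨k, by omega⟩ : Fin n)) (j := (⟨k + 1, hk⟩ : Fin n)) rfl)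
  obtain ⟨j, hj⟩ := hp.fX (fq ⟨k + 1, hk⟩)
  refine ⟨j, ?_⟩
  have h1 : f' (fq ⟨k + 1, hk⟩) = fq ⟨k, by omega⟩ := by
    simp only [fq, map_mul, map_inv, vS_aj hp, vS_bj hp]
  rw [h1] at hj
  rw [XQ_eq, XQ_eq, gq_fin (⟨k + 1, hk⟩ : Fin n), gq_fin (⟨k, by omega⟩ : Fin n)]
  exact hj

end main

end surf

end Pool.MP_59b15d_al.H40D
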