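import Mathlib
import Pool.Agent.H.MP_59b15d_al.h40d.Push
import Pool.Agent.H.MP_59b15d_al.h60e.Pu
import Pool.Agent.H.MP_59b15d_al.h76r.Sd

set_option autoImplicit false

/-!
# The relations of the pushes: instance and transfer
-/

namespace Pool.MP_59b15d_al.H40D

open Pool.MP_59b15d_al.H24T Pool.MP_59b15d_al.H76R Pool.MP_59b15d_al.H73E
open Pool.MP_59b15d_al.H60G Pool.MP_59b15d_al.H40L
open FreeGroup (of)

section inst

variable {n : ℕ} {G : Type*} [Group G] {a b : Fin (n + 1) → G} (h : IsSurf a b)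

theorem PG_60E (K : Finset ℕ) : H60E.PG n (TrA h) (XA h) (XB h) K = PG h K := (PG_eq h K).symm

theorem TT_pow (j : ℤ) : TT h ^ j = TrA h n ^ (-j) := by
  rw [TrA_last, inv_zpow, zpow_neg, inv_inv]

theorem comm_X (y : Fr n) : Commute (XX h y) (TrA h n) := by
  rw [TrA_last]
  exact (TT_XX h y).symm.inv_right

/-- The relations of the pushes. -/
theorem pu_of {S : ℕ → MulAut G}
    (hS : ∀ k (hk : k + 1 < n + 1), S k = SW h ⟨k, by omega⟩ ⟨k + 1, hk⟩ rfl) :
    H60E.Pu n (TrA h) (TrB h) (TrC h) S (XA h) (XB h) where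
  cA := fun l _ => comm_X h _
  cB := fun l _ => comm_X h _
  pA := by
    intro k hk K y hy
    rw [PG_60E] at hy ⊢
    exact TrA_PG h hk hy
  pC := by
    intro k hk K y hy
    rw [PG_60E] at hy ⊢
    exact TrC_PG h hk hy
  pI := by
    intro k hk K y hy
    rw [PG_60E] at hy ⊢
    exact io_PG h hk hy
  pB := by
    intro k hk K hkK y hy
    rw [PG_60E] at hy ⊢
    exact TrB_PG h hk hkK hy
  pS := by
    intro k hk K y hy
    rw [PG_60E] at hy ⊢
    rw [hS k (by omega)]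
    exact SW_PG h hk hy
  pSi := by
    intro k hk K y hy
    rw [PG_60E] at hy ⊢
    rw [hS k (by omega)]
    exact SWi_PG h hk hy
  last := by
    intro k hk
    obtain ⟨j, hj⟩ := XQ_last h hk
    exact ⟨-j, by rw [← TT_pow]; exact hj⟩
  ioQ := by
    intro l hl
    obtain ⟨j, hj⟩ := io_XQ h hl
    exact ⟨-j, by rw [← TT_pow]; exact hj⟩
  BXA := by
    intro l hl
    obtain ⟨j, hj⟩ := TrB_XA h hl
    exact ⟨-j, by rw [← TT_pow]; exact hj⟩
  BAQ := by
    intro l hl
    obtain ⟨j, hj⟩ := TrBA_XQ h hl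
    exact ⟨-j, by rw [← TT_pow]; exact hj⟩
  SXB := by
    intro k hk
    obtain ⟨j, hj⟩ := SW_XB h hk
    exact ⟨-j, by rw [← TT_pow, hS k (by omega)]; exact hj⟩
  SXQ := by
    intro k hk
    obtain ⟨j, hj⟩ := SW_XQ h hk
    exact ⟨-j, by rw [← TT_pow, hS k (by omega)]; exact hj⟩

end inst

section lift

variable {Γ Γ' : Type*} [Group Γ] [Group Γ'] {n : ℕ} {A B C S XA XB : ℕ → Γ'} (f : Γ' →* Γ)

theorem map_XQ (l : ℕ) : f (H60E.XQ XA XB l) =
    H60E.XQ (fun k => f (XA k)) (fun k => f (XB k)) l := by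
  simp only [H60E.XQ, map_mul, map_inv]

theorem map_PG (K : Finset ℕ) : (H60E.PG n A XA XB K).map f =
    H60E.PG n (fun k => f (A k)) (fun k => f (XA k)) (fun k => f (XB k)) K := by
  rw [H60E.PG, MonoidHom.map_closure, H60E.PG]
  congr 1
  ext x
  constructor
  · rintro ⟨y, (rfl | ⟨l, hl, rfl | rfl⟩ | ⟨l, hl, hk, rfl⟩), rfl⟩
    · exact Or.inl rfl
    · exact Or.inr (Or.inl ⟨l, hl, Or.inl rfl⟩)
    · exact Or.inr (Or.inl ⟨l, hl, Or.inr (map_XQ f l)⟩)
    · exact Or.inr (Or.inr ⟨l, hl, hk, rfl⟩)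
  · rintro (rfl | ⟨l, hl, rfl | rfl⟩ | ⟨l, hl, hk, rfl⟩)
    · exact ⟨_, Or.inl rfl, rfl⟩
    · exact ⟨_, Or.inr (Or.inl ⟨l, hl, Or.inl rfl⟩), rfl⟩
    · exact ⟨_, Or.inr (Or.inl ⟨l, hl, Or.inr rfl⟩), map_XQ f l⟩
    · exact ⟨_, Or.inr (Or.inr ⟨l, hl, hk, rfl⟩), rfl⟩

variable {f} (hf : Function.Injective f)
include hf

theorem PG_iff {K : Finset ℕ} {x : Γ'} : x ∈ H60E.PG n A XA XB K ↔
    f x ∈ H60E.PG n (fun k => f (A k)) (fun k => f (XA k)) (fun k => f (XB k)) K := by
  rw [← map_PG]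
  exact (Subgroup.mem_map_iff_mem hf).symm

/-- Transfer along an injective homomorphism. -/
theorem pu_lift (P : H60E.Pu n (fun k => f (A k)) (fun k => f (B k)) (fun k => f (C k))
    (fun k => f (S k)) (fun k => f (XA k)) (fun k => f (XB k))) : H60E.Pu n A B C S XA XB where
  cA := fun l hl => hf (by rw [map_mul, map_mul]; exact P.cA l hl)
  cB := fun l hl => hf (by rw [map_mul, map_mul]; exact P.cB l hl)
  pA := by
    intro k hk K y hy
    rw [PG_iff hf] at hy
    rw [PG_iff hf, PG_iff hf]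
    simp only [map_mul, map_inv]
    exact P.pA k hk K _ hy
  pC := by
    intro k hk K y hy
    rw [PG_iff hf] at hy
    rw [PG_iff hf, PG_iff hf]
    simp only [map_mul, map_inv]
    exact P.pC k hk K _ hy
  pI := by
    intro k hk K y hy
    rw [PG_iff hf] at hy
    rw [PG_iff hf, PG_iff hf]
    simp only [map_mul, map_inv, map_pow]
    exact P.pI k hk K _ hy
  pB := by
    intro k hk K hkK y hy
    rw [PG_iff hf] at hy
    rw [PG_iff hf, PG_iff hf]
    simp only [map_mul, map_inv]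
    exact P.pB k hk K hkK _ hy
  pS := by
    intro k hk K y hy
    rw [PG_iff hf] at hy
    rw [PG_iff hf]
    simp only [map_mul, map_inv]
    exact P.pS k hk K _ hy
  pSi := by
    intro k hk K y hy
    rw [PG_iff hf] at hy
    rw [PG_iff hf]
    simp only [map_mul, map_inv]
    exact P.pSi k hk K _ hy
  last := by
    intro k hk
    obtain ⟨j, hj⟩ := P.last k hk
    refine ⟨j, hf ?_⟩
    rw [map_XQ, hj]
    simp only [map_mul, map_inv, map_zpow]
  ioQ := by
    intro k hk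
    obtain ⟨j, hj⟩ := P.ioQ k hk
    refine ⟨j, hf ?_⟩
    simp only [map_mul, map_inv, map_zpow, map_pow, map_XQ]
    exact hj
  BXA := by
    intro k hk
    obtain ⟨j, hj⟩ := P.BXA k hk
    refine ⟨j, hf ?_⟩
    simp only [map_mul, map_inv, map_zpow]
    exact hj
  BAQ := by
    intro k hk
    obtain ⟨j, hj⟩ := P.BAQ k hk
    refine ⟨j, hf ?_⟩
    simp only [map_mul, map_inv, map_zpow, map_XQ] at hj ⊢
    exact hj
  SXB := by
    intro k hk
    obtain ⟨j, hj⟩ := P.SXB k hk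
    refine ⟨j, hf ?_⟩
    simp only [map_mul, map_inv, map_zpow]
    exact hj
  SXQ := by
    intro k hk
    obtain ⟨j, hj⟩ := P.SXQ k hk
    refine ⟨j, hf ?_⟩
    simp only [map_mul, map_inv, map_zpow, map_XQ]
    exact hj

end lift

section sub

variable {n : ℕ} {G : Type*} [Group G] {a b : Fin (n + 1) → G} (h : IsSurf a b)

theorem XX_MMs (y : Fr n) : XX h y ∈ MMs h := XX_mem h y

theorem XA_MCG (l : ℕ) : XA h l ∈ MCG a b := by
  rw [MCG_eq h]
  exact XX_MMs h _

theorem XB_MCG (l : ℕ) : XB h l ∈ MCG a b := by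
  rw [MCG_eq h]
  exact XX_MMs h _

/-- The push around `a l` in the mapping class group. -/
noncomputable def gXA (l : ℕ) : MCG a b := ⟨XA h l, XA_MCG h l⟩

/-- The push around `b l` in the mapping class group. -/
noncomputable def gXB (l : ℕ) : MCG a b := ⟨XB h l, XB_MCG h l⟩

theorem gXA_coe (l : ℕ) : (gXA h l : MulAut G) = XA h l := rfl
theorem gXB_coe (l : ℕ) : (gXB h l : MulAut G) = XB h l := rfl

/-- The relations of the pushes in a subgroup of the automorphism group. -/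
theorem pu_sub {M : Subgroup (MulAut G)} {gA gB gC gS gXA gXB : ℕ → M}
    (hA : ∀ k, (gA k : MulAut G) = TrA h k) (hB : ∀ k, (gB k : MulAut G) = TrB h k)
    (hC : ∀ k, (gC k : MulAut G) = TrC h k)
    (hS : ∀ k (hk : k + 1 < n + 1),
      (gS k : MulAut G) = SW h ⟨k, by omega⟩ ⟨k + 1, hk⟩ rfl)
    (hXA : ∀ k, (gXA k : MulAut G) = XA h k) (hXB : ∀ k, (gXB k : MulAut G) = XB h k) :
    H60E.Pu n gA gB gC gS gXA gXB := by
  apply pu_lift (f := M.subtype) M.subtype_injective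
  have e1 : (fun k => M.subtype (gA k)) = TrA h := funext hA
  have e2 : (fun k => M.subtype (gB k)) = TrB h := funext hB
  have e3 : (fun k => M.subtype (gC k)) = TrC h := funext hC
  have e4 : (fun k => M.subtype (gXA k)) = XA h := funext hXA
  have e5 : (fun k => M.subtype (gXB k)) = XB h := funext hXB
  rw [e1, e2, e3, e4, e5]
  exact pu_of h hS

end sub

end Pool.MP_59b15d_al.H40D
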