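import Mathlib
import Pool.Agent.H.MP_59b15d_al.h40d.PuI

set_option autoImplicit false
set_option linter.unusedSimpArgs false
set_option linter.unusedVariables false

/-!
# The pushes along the curves of a few handles

The refinement of `Push.lean` with the support: the conjugate by the twists of the handles `k`,
`k + 1` of a push around a curve of the handle `l` is a word in the pushes around the curves of the
handles `k`, `k + 1`, `l`.
-/

namespace Pool.MP_59b15d_al.H40D

open Pool.MP_59b15d_al.H24T Pool.MP_59b15d_al.H76R Pool.MP_59b15d_al.H73E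
open Pool.MP_59b15d_al.H60G Pool.MP_59b15d_al.H95G Pool.MP_59b15d_al.H40L
open FreeGroup (of)

/-! ### The free group -/

section free

variable {n : ℕ} {X K : Finset ℕ}

/-- The subgroup generated by the `a l`, the `q l`, `l ∈ X` and the `b l`, `l ∈ X`, `l ∉ K`. -/
def SX (n : ℕ) (X K : Finset ℕ) : Subgroup (Fr n) :=
  Subgroup.closure ({x | ∃ l, l ∈ X ∧ l < n ∧ (x = ga n l ∨ x = gq n l)} ∪
    {x | ∃ l, l ∈ X ∧ l < n ∧ l ∉ K ∧ x = gb n l})

theorem SX_le {S : Subgroup (Fr n)} (h1 : ∀ l, l ∈ X → l < n → ga n l ∈ S)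
    (h2 : ∀ l, l ∈ X → l < n → gq n l ∈ S)
    (h3 : ∀ l, l ∈ X → l < n → l ∉ K → gb n l ∈ S) : SX n X K ≤ S := by
  rw [SX, Subgroup.closure_le]
  rintro x (⟨l, hX, hl, rfl | rfl⟩ | ⟨l, hX, hl, hk, rfl⟩)
  · exact h1 l hX hl
  · exact h2 l hX hl
  · exact h3 l hX hl hk

/-- An automorphism mapping one of these subgroups to another. -/
def PrX (f' : MulAut (Fr n)) (X K K' : Finset ℕ) : Prop := ∀ y ∈ SX n X K, f' y ∈ SX n X K'

theorem amX (K : Finset ℕ) (l : Fin n) (hl : (l : ℕ) ∈ X) :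
    of (Sum.inl l) ∈ SX n X K := by
  rw [← ga_fin]
  exact Subgroup.subset_closure (Or.inl ⟨l, hl, l.2, Or.inl rfl⟩)

theorem qmX (K : Finset ℕ) (l : Fin n) (hl : (l : ℕ) ∈ X) :
    fq l ∈ SX n X K := by
  rw [← gq_fin]
  exact Subgroup.subset_closure (Or.inl ⟨l, hl, l.2, Or.inr rfl⟩)

theorem bmX {l : Fin n} (hk : (l : ℕ) ∉ K) (hl : (l : ℕ) ∈ X) :
    of (Sum.inr l) ∈ SX n X K := by
  rw [← gb_fin]
  exact Subgroup.subset_closure (Or.inr ⟨l, hl, l.2, hk, rfl⟩)

theorem cvmX (K : Finset ℕ) (i j : Fin n) (hi : (i : ℕ) ∈ X)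
    (hj : (j : ℕ) ∈ X) : gcv i j ∈ SX n X K :=
  (SX n X K).mul_mem (qmX K i hi) (amX K j hj)

theorem conj_mX {x y : Fr n} (hx : x ∈ SX n X K) (hy : y ∈ SX n X K) :
    x * y * x⁻¹ ∈ SX n X K := (SX n X K).mul_mem ((SX n X K).mul_mem hx hy) ((SX n X K).inv_mem hx)

theorem conj_mX' {x y : Fr n} (hx : x ∈ SX n X K) (hy : y ∈ SX n X K) :
    x⁻¹ * y * x ∈ SX n X K := (SX n X K).mul_mem ((SX n X K).mul_mem ((SX n X K).inv_mem hx) hy) hx

variable {f' : MulAut (Fr n)} {K' : Finset ℕ}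

theorem prx_fin (h1 : ∀ l : Fin n, (l : ℕ) ∈ X → f' (of (Sum.inl l)) ∈ SX n X K')
    (h2 : ∀ l : Fin n, (l : ℕ) ∈ X → f' (fq l) ∈ SX n X K')
    (h3 : ∀ l : Fin n, (l : ℕ) ∈ X → (l : ℕ) ∉ K → f' (of (Sum.inr l)) ∈ SX n X K') :
    PrX f' X K K' := by
  have h4 : SX n X K ≤ (SX n X K').comap f'.toMonoidHom := by
    apply SX_le
    · intro l hX hl
      exact (ga_fin (⟨l, hl⟩ : Fin n)) ▸ h1 ⟨l, hl⟩ hX
    · intro l hX hl
      exact (gq_fin (⟨l, hl⟩ : Fin n)) ▸ h2 ⟨l, hl⟩ hX
    · intro l hX hl hk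
      exact (gb_fin (⟨l, hl⟩ : Fin n)) ▸ h3 ⟨l, hl⟩ hX hk
  exact fun y hy => h4 hy

theorem prx_inv (h1 : ∀ l : Fin n, (l : ℕ) ∈ X → ∃ w ∈ SX n X K', f' w = of (Sum.inl l))
    (h2 : ∀ l : Fin n, (l : ℕ) ∈ X → ∃ w ∈ SX n X K', f' w = fq l)
    (h3 : ∀ l : Fin n, (l : ℕ) ∈ X → (l : ℕ) ∉ K → ∃ w ∈ SX n X K', f' w = of (Sum.inr l)) :
    PrX f'⁻¹ X K K' := by
  apply prx_fin
  · intro l hlX
    obtain ⟨w, hw, h4⟩ := h1 l hlX
    rwa [← h4, MulAut.inv_apply_self]
  · intro l hlX
    obtain ⟨w, hw, h4⟩ := h2 l hlX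
    rwa [← h4, MulAut.inv_apply_self]
  · intro l hlX hl
    obtain ⟨w, hw, h4⟩ := h3 l hlX hl
    rwa [← h4, MulAut.inv_apply_self]

end free

section pres

variable {n : ℕ} {G : Type*} [Group G] {a b : Fin (n + 1) → G} {h : IsSurf a b}
  {f' : MulAut (Fr n)} {X K K' : Finset ℕ}

theorem PrX_A {i : Fin n} (hp : Pair h f' (TA h i.castSucc)⁻¹) (K : Finset ℕ) : PrX f' X K K := by
  have e : ∀ l : Fin n, f' (fq l) = fq l := by
    intro l
    by_cases hl : l = i
    · subst hl
      simp only [fq, map_mul, map_inv, vA_a hp, vA_b hp]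
      group
    · simp only [fq, map_mul, map_inv, vA_a hp, vA_b_ne hp hl]
  apply prx_fin
  · intro l hlX
    rw [vA_a hp]
    exact amX K l (by assumption)
  · intro l hlX
    rw [e]
    exact qmX K l (by assumption)
  · intro l hlX hk
    by_cases hl : l = i
    · subst hl
      rw [vA_b hp]
      exact (SX n X K).mul_mem (bmX hk (by assumption)) ((SX n X K).inv_mem (amX K l (by assumption)))
    · rw [vA_b_ne hp hl]
      exact bmX hk (by assumption)

theorem PrX_Ai {i : Fin n} (hp : Pair h f' (TA h i.castSucc)⁻¹) (K : Finset ℕ) :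
    PrX f'⁻¹ X K K := by
  have e : ∀ l : Fin n, f' (fq l) = fq l := by
    intro l
    by_cases hl : l = i
    · subst hl
      simp only [fq, map_mul, map_inv, vA_a hp, vA_b hp]
      group
    · simp only [fq, map_mul, map_inv, vA_a hp, vA_b_ne hp hl]
  apply prx_inv
  · exact fun l hlX => ⟨_, amX K l (by assumption), vA_a hp l⟩
  · exact fun l hlX => ⟨_, qmX K l (by assumption), e l⟩
  · intro l hlX hk
    by_cases hl : l = i
    · subst hl
      refine ⟨of (Sum.inr l) * of (Sum.inl l), (SX n X K).mul_mem (bmX hk (by assumption)) (amX K l (by assumption)), ?_⟩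
      rw [map_mul, vA_a hp, vA_b hp, inv_mul_cancel_right]
    · exact ⟨_, bmX hk (by assumption), vA_b_ne hp hl⟩

theorem PrX_B {i : Fin n} (hp : Pair h f' (TB h i.castSucc)) {K : Finset ℕ}
    (hi : (i : ℕ) ∉ K) : PrX f' X K K := by
  apply prx_fin
  · intro l hlX
    by_cases hl : l = i
    · subst hl
      rw [vB_a hp]
      exact (SX n X K).mul_mem (amX K l (by assumption)) (bmX hi (by assumption))
    · rw [vB_a_ne hp hl]
      exact amX K l (by assumption)
  · intro l hlX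
    by_cases hl : l = i
    · subst hl
      have e : f' (fq l) = (of (Sum.inl l))⁻¹ * (of (Sum.inr l))⁻¹ := by
        simp only [fq, map_mul, map_inv, vB_a hp, vB_b hp]
        group
      rw [e]
      exact (SX n X K).mul_mem ((SX n X K).inv_mem (amX K l (by assumption))) ((SX n X K).inv_mem (bmX hi (by assumption)))
    · have e : f' (fq l) = fq l := by
        simp only [fq, map_mul, map_inv, vB_a_ne hp hl, vB_b hp]
      rw [e]
      exact qmX K l (by assumption)
  · intro l hlX hk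
    rw [vB_b hp]
    exact bmX hk (by assumption)

theorem PrX_Bi {i : Fin n} (hp : Pair h f' (TB h i.castSucc)) {K : Finset ℕ}
    (hi : (i : ℕ) ∉ K) : PrX f'⁻¹ X K K := by
  apply prx_inv
  · intro l hlX
    by_cases hl : l = i
    · subst hl
      refine ⟨of (Sum.inl l) * (of (Sum.inr l))⁻¹,
        (SX n X K).mul_mem (amX K l (by assumption)) ((SX n X K).inv_mem (bmX hi (by assumption))), ?_⟩
      rw [map_mul, map_inv, vB_a hp, vB_b hp, mul_inv_cancel_right]
    · exact ⟨_, amX K l (by assumption), vB_a_ne hp hl⟩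
  · intro l hlX
    by_cases hl : l = i
    · subst hl
      refine ⟨of (Sum.inr l) * fq l, (SX n X K).mul_mem (bmX hi (by assumption)) (qmX K l (by assumption)), ?_⟩
      simp only [fq, map_mul, map_inv, vB_a hp, vB_b hp]
      group
    · refine ⟨fq l, qmX K l (by assumption), ?_⟩
      simp only [fq, map_mul, map_inv, vB_a_ne hp hl, vB_b hp]
  · exact fun l hlX hk => ⟨_, bmX hk (by assumption), vB_b hp l⟩

theorem PrX_I {i : Fin n} (hp : Pair h f' (II h i)) (K : Finset ℕ) : PrX f' X K K := by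
  apply prx_fin
  · intro l hlX
    by_cases hl : l = i
    · subst hl
      rw [vI_a hp]
      exact conj_mX (amX K l (by assumption)) (qmX K l (by assumption))
    · rw [vI_a_ne hp hl]
      exact amX K l (by assumption)
  · intro l hlX
    by_cases hl : l = i
    · subst hl
      have e : f' (fq l) = of (Sum.inl l) := by
        simp only [fq, map_mul, map_inv, vI_a hp, vI_b hp]
        group
      rw [e]
      exact amX K l (by assumption)
    · have e : f' (fq l) = fq l := by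
        simp only [fq, map_mul, map_inv, vI_a_ne hp hl, vI_b_ne hp hl]
      rw [e]
      exact qmX K l (by assumption)
  · intro l hlX hk
    by_cases hl : l = i
    · subst hl
      rw [vI_b hp]
      exact conj_mX (amX K l (by assumption)) ((SX n X K).inv_mem (bmX hk (by assumption)))
    · rw [vI_b_ne hp hl]
      exact bmX hk (by assumption)

theorem PrX_Ii {i : Fin n} (hp : Pair h f' (II h i)) (K : Finset ℕ) : PrX f'⁻¹ X K K := by
  apply prx_inv
  · intro l hlX
    by_cases hl : l = i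
    · subst hl
      refine ⟨fq l, qmX K l (by assumption), ?_⟩
      simp only [fq, map_mul, map_inv, vI_a hp, vI_b hp]
      group
    · exact ⟨_, amX K l (by assumption), vI_a_ne hp hl⟩
  · intro l hlX
    by_cases hl : l = i
    · subst hl
      refine ⟨(fq l)⁻¹ * of (Sum.inl l) * fq l, conj_mX' (qmX K l (by assumption)) (amX K l (by assumption)), ?_⟩
      simp only [fq, map_mul, map_inv, vI_a hp, vI_b hp]
      group
    · refine ⟨fq l, qmX K l (by assumption), ?_⟩
      simp only [fq, map_mul, map_inv, vI_a_ne hp hl, vI_b_ne hp hl]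
  · intro l hlX hk
    by_cases hl : l = i
    · subst hl
      refine ⟨(fq l)⁻¹ * (of (Sum.inr l))⁻¹ * fq l,
        conj_mX' (qmX K l (by assumption)) ((SX n X K).inv_mem (bmX hk (by assumption))), ?_⟩
      simp only [fq, map_mul, map_inv, vI_a hp, vI_b hp]
      group
    · exact ⟨_, bmX hk (by assumption), vI_b_ne hp hl⟩

theorem PrX_C {i j : Fin n} {hij : (j : ℕ) = i + 1} (hiX : (i : ℕ) ∈ X) (hjX : (j : ℕ) ∈ X)
    (hp : Pair h f' (CC h i.castSucc j.castSucc hij)) (K : Finset ℕ) : PrX f' X K K := by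
  have n1 := fin_ne hij
  apply prx_fin
  · intro l hlX
    by_cases h1 : l = i
    · subst h1
      rw [vC_ai hp]
      exact amX K l (by assumption)
    · by_cases h2 : l = j
      · subst h2
        rw [vC_aj hp]
        exact conj_mX (cvmX K i l (by assumption) (by assumption)) (amX K l (by assumption))
      · rw [vC_a_ne hp h1 h2]
        exact amX K l (by assumption)
  · intro l hlX
    by_cases h1 : l = i
    · subst h1
      have e : f' (fq l) = gcv l j * fq l * (gcv l j)⁻¹ := by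
        simp only [fq, map_mul, map_inv, vC_ai hp, vC_bi hp]
        group
      rw [e]
      exact conj_mX (cvmX K l j (by assumption) (by assumption)) (qmX K l (by assumption))
    · by_cases h2 : l = j
      · subst h2
        have e : f' (fq l) = fq l := by
          simp only [fq, map_mul, map_inv, vC_aj hp, vC_bj hp]
          group
        rw [e]
        exact qmX K l (by assumption)
      · have e : f' (fq l) = fq l := by
          simp only [fq, map_mul, map_inv, vC_a_ne hp h1 h2, vC_b_ne hp h1 h2]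
        rw [e]
        exact qmX K l (by assumption)
  · intro l hlX hk
    by_cases h1 : l = i
    · subst h1
      rw [vC_bi hp]
      exact (SX n X K).mul_mem (cvmX K l j (by assumption) (by assumption)) (bmX hk (by assumption))
    · by_cases h2 : l = j
      · subst h2
        rw [vC_bj hp]
        exact (SX n X K).mul_mem (bmX hk (by assumption)) ((SX n X K).inv_mem (cvmX K i l (by assumption) (by assumption)))
      · rw [vC_b_ne hp h1 h2]
        exact bmX hk (by assumption)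

theorem PrX_Ci {i j : Fin n} {hij : (j : ℕ) = i + 1} (hiX : (i : ℕ) ∈ X) (hjX : (j : ℕ) ∈ X)
    (hp : Pair h f' (CC h i.castSucc j.castSucc hij)) (K : Finset ℕ) : PrX f'⁻¹ X K K := by
  have n1 := fin_ne hij
  apply prx_inv
  · intro l hlX
    by_cases h1 : l = i
    · subst h1
      exact ⟨_, amX K l (by assumption), vC_ai hp⟩
    · by_cases h2 : l = j
      · subst h2
        refine ⟨(gcv i l)⁻¹ * of (Sum.inl l) * gcv i l, conj_mX' (cvmX K i l (by assumption) (by assumption)) (amX K l (by assumption)), ?_⟩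
        simp only [map_mul, map_inv, vC_cv hp, vC_aj hp]
        group
      · exact ⟨_, amX K l (by assumption), vC_a_ne hp h1 h2⟩
  · intro l hlX
    by_cases h1 : l = i
    · subst h1
      refine ⟨(gcv l j)⁻¹ * fq l * gcv l j, conj_mX' (cvmX K l j (by assumption) (by assumption)) (qmX K l (by assumption)), ?_⟩
      simp only [fq, map_mul, map_inv, vC_cv hp, vC_ai hp, vC_bi hp]
      group
    · by_cases h2 : l = j
      · subst h2
        refine ⟨fq l, qmX K l (by assumption), ?_⟩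
        simp only [fq, map_mul, map_inv, vC_aj hp, vC_bj hp]
        group
      · refine ⟨fq l, qmX K l (by assumption), ?_⟩
        simp only [fq, map_mul, map_inv, vC_a_ne hp h1 h2, vC_b_ne hp h1 h2]
  · intro l hlX hk
    by_cases h1 : l = i
    · subst h1
      refine ⟨(gcv l j)⁻¹ * of (Sum.inr l),
        (SX n X K).mul_mem ((SX n X K).inv_mem (cvmX K l j (by assumption) (by assumption))) (bmX hk (by assumption)), ?_⟩
      simp only [map_mul, map_inv, vC_cv hp, vC_bi hp]
      group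
    · by_cases h2 : l = j
      · subst h2
        refine ⟨of (Sum.inr l) * gcv i l, (SX n X K).mul_mem (bmX hk (by assumption)) (cvmX K i l (by assumption) (by assumption)), ?_⟩
        simp only [map_mul, map_inv, vC_cv hp, vC_bj hp]
        group
      · exact ⟨_, bmX hk (by assumption), vC_b_ne hp h1 h2⟩

theorem PrX_S {i j : Fin n} {hij : (j : ℕ) = i + 1} (hiX : (i : ℕ) ∈ X) (hjX : (j : ℕ) ∈ X)
    (hp : Pair h f' (SW h i.castSucc j.castSucc hij)) {K K' : Finset ℕ}
    (hij' : (i : ℕ) ∈ K' → (j : ℕ) ∈ K) (hji : (j : ℕ) ∈ K' → (i : ℕ) ∈ K)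
    (hne : ∀ l, l ≠ (i : ℕ) → l ≠ (j : ℕ) → l ∈ K' → l ∈ K) : PrX f' X K K' := by
  have n1 := fin_ne hij
  have ec : of (Sum.inl i) * of (Sum.inr i) * (of (Sum.inl i))⁻¹ * (of (Sum.inr i))⁻¹ =
      of (Sum.inl i) * fq i := by
    rw [fq]
    group
  have cm : of (Sum.inl i) * fq i ∈ SX n X K' := (SX n X K').mul_mem (amX K' i (by assumption)) (qmX K' i (by assumption))
  apply prx_fin
  · intro l hlX
    by_cases h1 : l = i
    · subst h1
      rw [vS_ai hp, ec]
      exact conj_mX cm (amX K' j (by assumption))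
    · by_cases h2 : l = j
      · subst h2
        rw [vS_aj hp]
        exact amX K' i (by assumption)
      · rw [vS_a_ne hp h1 h2]
        exact amX K' l (by assumption)
  · intro l hlX
    by_cases h1 : l = i
    · subst h1
      have e : f' (fq l) = (of (Sum.inl l) * fq l) * fq j * (of (Sum.inl l) * fq l)⁻¹ := by
        rw [← ec]
        simp only [fq, map_mul, map_inv, vS_ai hp, vS_bi hp]
        group
      rw [e]
      exact conj_mX cm (qmX K' j (by assumption))
    · by_cases h2 : l = j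
      · subst h2
        have e : f' (fq l) = fq i := by
          simp only [fq, map_mul, map_inv, vS_aj hp, vS_bj hp]
        rw [e]
        exact qmX K' i (by assumption)
      · have e : f' (fq l) = fq l := by
          simp only [fq, map_mul, map_inv, vS_a_ne hp h1 h2, vS_b_ne hp h1 h2]
        rw [e]
        exact qmX K' l (by assumption)
  · intro l hlX hk
    by_cases h1 : l = i
    · subst h1
      rw [vS_bi hp, ec]
      exact conj_mX cm (bmX (fun h3 => hk (hji h3)) (by assumption))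
    · by_cases h2 : l = j
      · subst h2
        rw [vS_bj hp]
        exact bmX (fun h3 => hk (hij' h3)) (by assumption)
      · rw [vS_b_ne hp h1 h2]
        exact bmX (fun h3 => hk (hne l (fun h4 => h1 (Fin.ext h4)) (fun h4 => h2 (Fin.ext h4)) h3))
          (by assumption)

theorem PrX_Si {i j : Fin n} {hij : (j : ℕ) = i + 1} (hiX : (i : ℕ) ∈ X) (hjX : (j : ℕ) ∈ X)
    (hp : Pair h f' (SW h i.castSucc j.castSucc hij)) {K K' : Finset ℕ}
    (hij' : (i : ℕ) ∈ K' → (j : ℕ) ∈ K) (hji : (j : ℕ) ∈ K' → (i : ℕ) ∈ K)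
    (hne : ∀ l, l ≠ (i : ℕ) → l ≠ (j : ℕ) → l ∈ K' → l ∈ K) : PrX f'⁻¹ X K K' := by
  have n1 := fin_ne hij
  have ec : of (Sum.inl j) * fq j =
      of (Sum.inl j) * of (Sum.inr j) * (of (Sum.inl j))⁻¹ * (of (Sum.inr j))⁻¹ := by
    rw [fq]
    group
  have cm : of (Sum.inl j) * fq j ∈ SX n X K' := (SX n X K').mul_mem (amX K' j (by assumption)) (qmX K' j (by assumption))
  apply prx_inv
  · intro l hlX
    by_cases h1 : l = i
    · subst h1
      exact ⟨_, amX K' j (by assumption), vS_aj hp⟩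
    · by_cases h2 : l = j
      · subst h2
        refine ⟨(of (Sum.inl l) * fq l)⁻¹ * of (Sum.inl i) * (of (Sum.inl l) * fq l),
          conj_mX' cm (amX K' i (by assumption)), ?_⟩
        rw [ec]
        simp only [map_mul, map_inv, vS_ai hp, vS_aj hp, vS_bj hp]
        group
      · exact ⟨_, amX K' l (by assumption), vS_a_ne hp h1 h2⟩
  · intro l hlX
    by_cases h1 : l = i
    · subst h1
      refine ⟨fq j, qmX K' j (by assumption), ?_⟩
      simp only [fq, map_mul, map_inv, vS_aj hp, vS_bj hp]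
    · by_cases h2 : l = j
      · subst h2
        refine ⟨(of (Sum.inl l) * fq l)⁻¹ * fq i * (of (Sum.inl l) * fq l),
          conj_mX' cm (qmX K' i (by assumption)), ?_⟩
        rw [ec]
        simp only [fq, map_mul, map_inv, vS_ai hp, vS_bi hp, vS_aj hp, vS_bj hp]
        group
      · refine ⟨fq l, qmX K' l (by assumption), ?_⟩
        simp only [fq, map_mul, map_inv, vS_a_ne hp h1 h2, vS_b_ne hp h1 h2]
  · intro l hlX hk
    by_cases h1 : l = i
    · subst h1
      exact ⟨_, bmX (fun h3 => hk (hji h3)) (by assumption), vS_bj hp⟩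
    · by_cases h2 : l = j
      · subst h2
        refine ⟨(of (Sum.inl l) * fq l)⁻¹ * of (Sum.inr i) * (of (Sum.inl l) * fq l),
          conj_mX' cm (bmX (fun h3 => hk (hij' h3)) (by assumption)), ?_⟩
        rw [ec]
        simp only [map_mul, map_inv, vS_bi hp, vS_aj hp, vS_bj hp]
        group
      · exact ⟨_, bmX (fun h3 => hk
          (hne l (fun h4 => h1 (Fin.ext h4)) (fun h4 => h2 (Fin.ext h4)) h3)) (by assumption),
          vS_b_ne hp h1 h2⟩

end pres

section main

variable {n : ℕ} {G : Type*} [Group G] {a b : Fin (n + 1) → G} (h : IsSurf a b)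

/-- The pushes along the curves of the handles in `X`. -/
noncomputable def PGX (h : IsSurf a b) (X K : Finset ℕ) : Subgroup (MulAut G) :=
  Subgroup.closure (insert (TrA h n)
    ({x | ∃ l, l ∈ X ∧ l < n ∧ (x = XA h l ∨ x = H60E.XQ (XA h) (XB h) l)} ∪
    {x | ∃ l, l ∈ X ∧ l < n ∧ l ∉ K ∧ x = XB h l}))

variable {h} {X K K' : Finset ℕ}

theorem TrA_mem_PGX : TrA h n ∈ PGX h X K := Subgroup.subset_closure (Set.mem_insert _ _)

theorem XX_mem_PGX {y : Fr n} (hy : y ∈ SX n X K) : XX h y ∈ PGX h X K := by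
  have h1 : SX n X K ≤ (PGX h X K).comap (XX h) := by
    apply SX_le
    · intro l hX hl
      exact Subgroup.subset_closure (Set.mem_insert_of_mem _ (Or.inl ⟨l, hX, hl, Or.inl rfl⟩))
    · intro l hX hl
      exact Subgroup.subset_closure
        (Set.mem_insert_of_mem _ (Or.inl ⟨l, hX, hl, Or.inr (XQ_eq h l).symm⟩))
    · intro l hX hl hk
      exact Subgroup.subset_closure (Set.mem_insert_of_mem _ (Or.inr ⟨l, hX, hl, hk, rfl⟩))
  exact h1 hy

theorem mem_PGX {x : MulAut G} :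
    x ∈ PGX h X K ↔ ∃ y ∈ SX n X K, ∃ k : ℤ, x = XX h y * TT h ^ k := by
  constructor
  · intro hx
    let S : Subgroup (MulAut G) :=
      { carrier := {x | ∃ y ∈ SX n X K, ∃ k : ℤ, x = XX h y * TT h ^ k}
        one_mem' := ⟨1, (SX n X K).one_mem, 0, by rw [map_one, zpow_zero, mul_one]⟩
        mul_mem' := by
          rintro _ _ ⟨y, hy, k, rfl⟩ ⟨z, hz, l, rfl⟩
          refine ⟨y * z, (SX n X K).mul_mem hy hz, k + l, ?_⟩
          have h2 := ((TT_XX h z).zpow_left k).eq
          rw [map_mul, zpow_add]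
          calc XX h y * TT h ^ k * (XX h z * TT h ^ l) =
              XX h y * (TT h ^ k * XX h z) * TT h ^ l := by group
            _ = _ := by rw [h2]; group
        inv_mem' := by
          rintro _ ⟨y, hy, k, rfl⟩
          refine ⟨y⁻¹, (SX n X K).inv_mem hy, -k, ?_⟩
          have h2 := ((TT_XX h y).zpow_left k).inv_inv.eq
          rw [mul_inv_rev, h2, map_inv, zpow_neg] }
    have hle : PGX h X K ≤ S := by
      rw [PGX, Subgroup.closure_le]
      rintro x (rfl | ⟨l, hX, hl, rfl | rfl⟩ | ⟨l, hX, hl, hk, rfl⟩)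
      · exact ⟨1, (SX n X K).one_mem, -1, by
          rw [map_one, one_mul, TrA_last, zpow_neg, zpow_one]⟩
      · exact ⟨ga n l, Subgroup.subset_closure (Or.inl ⟨l, hX, hl, Or.inl rfl⟩), 0, by
          rw [zpow_zero, mul_one]; rfl⟩
      · exact ⟨gq n l, Subgroup.subset_closure (Or.inl ⟨l, hX, hl, Or.inr rfl⟩), 0, by
          rw [zpow_zero, mul_one, ← XQ_eq]; rfl⟩
      · exact ⟨gb n l, Subgroup.subset_closure (Or.inr ⟨l, hX, hl, hk, rfl⟩), 0, by
          rw [zpow_zero, mul_one]; rfl⟩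
    exact hle hx
  · rintro ⟨y, hy, k, rfl⟩
    have h1 : TT h = (TrA h n)⁻¹ := by rw [TrA_last, inv_inv]
    rw [h1]
    exact (PGX h X K).mul_mem (XX_mem_PGX hy)
      ((PGX h X K).zpow_mem ((PGX h X K).inv_mem TrA_mem_PGX) k)

theorem conj_PGX {f' : MulAut (Fr n)} {f : MulAut G} (hp : Pair h f' f)
    (hP : PrX f' X K K') {x : MulAut G} (hx : x ∈ PGX h X K) :
    f * x * f⁻¹ ∈ PGX h X K' := by
  obtain ⟨y, hy, k, rfl⟩ := mem_PGX.1 hx
  obtain ⟨l, hl⟩ := hp.fX y
  have h1 := (comm_TT h hp.fj hp.fa hp.fb).zpow_right k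
  rw [mem_PGX]
  refine ⟨f' y, hP y hy, l + k, ?_⟩
  rw [zpow_add]
  calc f * (XX h y * TT h ^ k) * f⁻¹ = f * XX h y * f⁻¹ * (f * TT h ^ k) * f⁻¹ := by group
    _ = _ := by rw [h1.eq, hl]; group

theorem conj_PGX' {f' : MulAut (Fr n)} {f : MulAut G} (hp : Pair h f' f)
    (hP : PrX f'⁻¹ X K K') {x : MulAut G} (hx : x ∈ PGX h X K) :
    f⁻¹ * x * f ∈ PGX h X K' := by
  have h1 := conj_PGX hp.inv hP hx
  rwa [inv_inv] at h1

end main

/-! ### The abstract relations -/

section abs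

variable {Γ : Type*} [Group Γ]

/-- The group generated by `A n` and the pushes along the curves of the handles in `X`, without
the `b l`, `l ∈ K`. -/
def PX (n : ℕ) (A XA XB : ℕ → Γ) (X K : Finset ℕ) : Subgroup Γ :=
  Subgroup.closure (insert (A n)
    ({x | ∃ l, l ∈ X ∧ l < n ∧ (x = XA l ∨ x = H60E.XQ XA XB l)} ∪
    {x | ∃ l, l ∈ X ∧ l < n ∧ l ∉ K ∧ x = XB l}))

/-- The relations of the pushes with the supports. -/
structure PuX (n : ℕ) (A B C S XA XB : ℕ → Γ) : Prop where
  pA : ∀ k, k < n → ∀ X K : Finset ℕ, ∀ y ∈ PX n A XA XB X K,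
    A k * y * (A k)⁻¹ ∈ PX n A XA XB X K ∧ (A k)⁻¹ * y * A k ∈ PX n A XA XB X K
  pC : ∀ k, k + 1 < n → ∀ X K : Finset ℕ, k ∈ X → k + 1 ∈ X → ∀ y ∈ PX n A XA XB X K,
    C k * y * (C k)⁻¹ ∈ PX n A XA XB X K ∧ (C k)⁻¹ * y * C k ∈ PX n A XA XB X K
  pI : ∀ k, k < n → ∀ X K : Finset ℕ, ∀ y ∈ PX n A XA XB X K,
    (A k * B k) ^ 3 * y * ((A k * B k) ^ 3)⁻¹ ∈ PX n A XA XB X K ∧
      ((A k * B k) ^ 3)⁻¹ * y * (A k * B k) ^ 3 ∈ PX n A XA XB X K
  pB : ∀ k, k < n → ∀ X K : Finset ℕ, k ∉ K → ∀ y ∈ PX n A XA XB X K,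
    B k * y * (B k)⁻¹ ∈ PX n A XA XB X K ∧ (B k)⁻¹ * y * B k ∈ PX n A XA XB X K
  pS : ∀ k, k + 1 < n → ∀ X K : Finset ℕ, k ∈ X → k + 1 ∈ X → ∀ y ∈ PX n A XA XB X K,
    S k * y * (S k)⁻¹ ∈ PX n A XA XB X (K.map (Equiv.swap k (k + 1)).toEmbedding)
  pSi : ∀ k, k + 1 < n → ∀ X K : Finset ℕ, k ∈ X → k + 1 ∈ X →
    ∀ y ∈ PX n A XA XB X (K.map (Equiv.swap k (k + 1)).toEmbedding),
    (S k)⁻¹ * y * S k ∈ PX n A XA XB X K

end abs

section inst

variable {n : ℕ} {G : Type*} [Group G] {a b : Fin (n + 1) → G} (h : IsSurf a b)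

theorem PX_eq (X K : Finset ℕ) : PX n (TrA h) (XA h) (XB h) X K = PGX h X K := rfl

/-- The relations of the pushes with the supports, in the automorphism group. -/
theorem pux_of {S : ℕ → MulAut G}
    (hS : ∀ k (hk : k + 1 < n + 1), S k = SW h ⟨k, by omega⟩ ⟨k + 1, hk⟩ rfl) :
    PuX n (TrA h) (TrB h) (TrC h) S (XA h) (XB h) where
  pA := by
    intro k hk X K y hy
    rw [PX_eq] at hy ⊢
    rw [TrA_fin h hk]
    obtain ⟨f', hp⟩ := exists_pair h ((MR h 0 n).inv_mem (mr_TA h ⟨k, hk⟩))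
    exact ⟨conj_PGX hp (PrX_A hp K) hy, conj_PGX' hp (PrX_Ai hp K) hy⟩
  pC := by
    intro k hk X K h1 h2 y hy
    rw [PX_eq] at hy ⊢
    rw [TrC_fin h hk]
    obtain ⟨f', hp⟩ := exists_pair h
      (mr_CC h (i := (⟨k, by omega⟩ : Fin n)) (j := (⟨k + 1, hk⟩ : Fin n)) rfl)
    exact ⟨conj_PGX hp (PrX_C h1 h2 hp K) hy, conj_PGX' hp (PrX_Ci h1 h2 hp K) hy⟩
  pI := by
    intro k hk X K y hy
    rw [PX_eq] at hy ⊢
    rw [II_fin h hk]
    obtain ⟨f', hp⟩ := exists_pair h (mr_II h ⟨k, hk⟩)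
    exact ⟨conj_PGX hp (PrX_I hp K) hy, conj_PGX' hp (PrX_Ii hp K) hy⟩
  pB := by
    intro k hk X K hkK y hy
    rw [PX_eq] at hy ⊢
    rw [TrB_fin h hk]
    obtain ⟨f', hp⟩ := exists_pair h (mr_TB h ⟨k, hk⟩)
    exact ⟨conj_PGX hp (PrX_B hp hkK) hy, conj_PGX' hp (PrX_Bi hp hkK) hy⟩
  pS := by
    intro k hk X K h1 h2 y hy
    rw [PX_eq] at hy ⊢
    rw [hS k (by omega)]
    obtain ⟨f', hp⟩ := exists_pair h
      (mr_SW h (i := (⟨k, by omega⟩ : Fin n)) (j := (⟨k + 1, hk⟩ : Fin n)) rfl)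
    refine conj_PGX hp (PrX_S h1 h2 hp ?_ ?_ ?_) hy
    · intro h1
      have h2 := mem_swap.1 h1
      rwa [Equiv.swap_apply_left] at h2
    · intro h1
      have h2 := mem_swap.1 h1
      rwa [Equiv.swap_apply_right] at h2
    · intro l h1 h2 h3
      have h4 := mem_swap.1 h3
      rwa [Equiv.swap_apply_of_ne_of_ne h1 h2] at h4
  pSi := by
    intro k hk X K h1 h2 y hy
    rw [PX_eq] at hy ⊢
    rw [hS k (by omega)]
    obtain ⟨f', hp⟩ := exists_pair h
      (mr_SW h (i := (⟨k, by omega⟩ : Fin n)) (j := (⟨k + 1, hk⟩ : Fin n)) rfl)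
    refine conj_PGX' hp (PrX_Si h1 h2 hp ?_ ?_ ?_) hy
    · intro h1
      apply mem_swap.2
      change Equiv.swap k (k + 1) (k + 1) ∈ K
      rwa [Equiv.swap_apply_right]
    · intro h1
      apply mem_swap.2
      change Equiv.swap k (k + 1) k ∈ K
      rwa [Equiv.swap_apply_left]
    · intro l h1 h2 h3
      apply mem_swap.2
      rwa [Equiv.swap_apply_of_ne_of_ne h1 h2]

end inst

section lift

variable {Γ Γ' : Type*} [Group Γ] [Group Γ'] {n : ℕ} {A B C S XA XB : ℕ → Γ'} (f : Γ' →* Γ)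

theorem map_PX (X K : Finset ℕ) : (PX n A XA XB X K).map f =
    PX n (fun k => f (A k)) (fun k => f (XA k)) (fun k => f (XB k)) X K := by
  rw [PX, MonoidHom.map_closure, PX]
  congr 1
  ext x
  constructor
  · rintro ⟨y, (rfl | ⟨l, hX, hl, rfl | rfl⟩ | ⟨l, hX, hl, hk, rfl⟩), rfl⟩
    · exact Or.inl rfl
    · exact Or.inr (Or.inl ⟨l, hX, hl, Or.inl rfl⟩)
    · exact Or.inr (Or.inl ⟨l, hX, hl, Or.inr (map_XQ f l)⟩)
    · exact Or.inr (Or.inr ⟨l, hX, hl, hk, rfl⟩)
  · rintro (rfl | ⟨l, hX, hl, rfl | rfl⟩ | ⟨l, hX, hl, hk, rfl⟩)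
    · exact ⟨_, Or.inl rfl, rfl⟩
    · exact ⟨_, Or.inr (Or.inl ⟨l, hX, hl, Or.inl rfl⟩), rfl⟩
    · exact ⟨_, Or.inr (Or.inl ⟨l, hX, hl, Or.inr rfl⟩), map_XQ f l⟩
    · exact ⟨_, Or.inr (Or.inr ⟨l, hX, hl, hk, rfl⟩), rfl⟩

variable {f} (hf : Function.Injective f)
include hf

theorem PX_iff {X K : Finset ℕ} {x : Γ'} : x ∈ PX n A XA XB X K ↔
    f x ∈ PX n (fun k => f (A k)) (fun k => f (XA k)) (fun k => f (XB k)) X K := by
  rw [← map_PX]
  exact (Subgroup.mem_map_iff_mem hf).symm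

/-- Transfer along an injective homomorphism. -/
theorem pux_lift (P : PuX n (fun k => f (A k)) (fun k => f (B k)) (fun k => f (C k))
    (fun k => f (S k)) (fun k => f (XA k)) (fun k => f (XB k))) : PuX n A B C S XA XB where
  pA := by
    intro k hk X K y hy
    rw [PX_iff hf] at hy
    rw [PX_iff hf, PX_iff hf]
    simp only [map_mul, map_inv]
    exact P.pA k hk X K _ hy
  pC := by
    intro k hk X K h1 h2 y hy
    rw [PX_iff hf] at hy
    rw [PX_iff hf, PX_iff hf]
    simp only [map_mul, map_inv]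
    exact P.pC k hk X K h1 h2 _ hy
  pI := by
    intro k hk X K y hy
    rw [PX_iff hf] at hy
    rw [PX_iff hf, PX_iff hf]
    simp only [map_mul, map_inv, map_pow]
    exact P.pI k hk X K _ hy
  pB := by
    intro k hk X K hkK y hy
    rw [PX_iff hf] at hy
    rw [PX_iff hf, PX_iff hf]
    simp only [map_mul, map_inv]
    exact P.pB k hk X K hkK _ hy
  pS := by
    intro k hk X K h1 h2 y hy
    rw [PX_iff hf] at hy
    rw [PX_iff hf]
    simp only [map_mul, map_inv]
    exact P.pS k hk X K h1 h2 _ hy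
  pSi := by
    intro k hk X K h1 h2 y hy
    rw [PX_iff hf] at hy
    rw [PX_iff hf]
    simp only [map_mul, map_inv]
    exact P.pSi k hk X K h1 h2 _ hy

end lift

section sub

variable {n : ℕ} {G : Type*} [Group G] {a b : Fin (n + 1) → G} (h : IsSurf a b)

/-- The relations of the pushes with the supports, in a subgroup of the automorphism group. -/
theorem pux_sub {M : Subgroup (MulAut G)} {gA gB gC gS gXA gXB : ℕ → M}
    (hA : ∀ k, (gA k : MulAut G) = TrA h k) (hB : ∀ k, (gB k : MulAut G) = TrB h k)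
    (hC : ∀ k, (gC k : MulAut G) = TrC h k)
    (hS : ∀ k (hk : k + 1 < n + 1),
      (gS k : MulAut G) = SW h ⟨k, by omega⟩ ⟨k + 1, hk⟩ rfl)
    (hXA : ∀ k, (gXA k : MulAut G) = XA h k) (hXB : ∀ k, (gXB k : MulAut G) = XB h k) :
    PuX n gA gB gC gS gXA gXB := by
  apply pux_lift (f := M.subtype) M.subtype_injective
  have e1 : (fun k => M.subtype (gA k)) = TrA h := funext hA
  have e2 : (fun k => M.subtype (gB k)) = TrB h := funext hB
  have e3 : (fun k => M.subtype (gC k)) = TrC h := funext hC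
  have e4 : (fun k => M.subtype (gXA k)) = XA h := funext hXA
  have e5 : (fun k => M.subtype (gXB k)) = XB h := funext hXB
  rw [e1, e2, e3, e4, e5]
  exact pux_of h hS

end sub

end Pool.MP_59b15d_al.H40D
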