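import Mathlib
import Pool.Agent.H.MP_59b15d_al.h40d.Exact
import Pool.Agent.H.MP_59b15d_al.h40d.PushX

set_option autoImplicit false

/-!
# The relations `Hb` and `Pu` are exact
-/

namespace Pool.MP_59b15d_al.H40D

open Module Pool.MP_59b15d_al.H95E Pool.MP_59b15d_al.H93E Pool.MP_59b15d_al.H11D
open Pool.MP_59b15d_al.H60E

/-! ### Images of the relations -/

section map

variable {E Γ : Type*} [Group E] [Group Γ] {g : ℕ} {A B C S : ℕ → E} (π : E →* Γ)

theorem comm_map {x y : E} (h : Commute x y) : Commute (π x) (π y) := h.map π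

theorem lk_map (L : Lk g A B C S) : Lk g (fun i => π (A i)) (fun i => π (B i))
    (fun i => π (C i)) (fun i => π (S i)) where
  AA := fun i j => (L.AA i j).map π
  AC := fun i j => (L.AC i j).map π
  CC := fun i j => (L.CC i j).map π
  AB := fun i j h => (L.AB i j h).map π
  BB := fun i j => (L.BB i j).map π
  BC := fun i j h h' => (L.BC i j h h').map π
  brA := fun i => by simpa only [map_mul] using congrArg π (L.brA i)
  brC := fun i h => by simpa only [map_mul] using congrArg π (L.brC i h)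
  brC' := fun i h => by simpa only [map_mul] using congrArg π (L.brC' i h)
  SA := fun i h => by simpa only [map_mul] using congrArg π (L.SA i h)
  SA' := fun i h => by simpa only [map_mul] using congrArg π (L.SA' i h)
  SB := fun i h => by simpa only [map_mul] using congrArg π (L.SB i h)
  SB' := fun i h => by simpa only [map_mul] using congrArg π (L.SB' i h)
  SAo := fun i j h h' => (L.SAo i j h h').map π
  SBo := fun i j h h' => (L.SBo i j h h').map π
  SCo := fun i j h h' h'' => (L.SCo i j h h' h'').map π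
  SSC := fun i h => by simpa only [map_mul] using congrArg π (L.SSC i h)
  SSC' := fun i h => by simpa only [map_mul] using congrArg π (L.SSC' i h)
  gar := fun i h => by simpa only [map_mul, map_pow] using congrArg π (L.gar i h)
  Cout := fun i h => by
    rw [L.Cout i h, map_one]

theorem map_fa (l : ℕ) : ∀ d, π (fa C S l d) = fa (fun i => π (C i)) (fun i => π (S i)) l d
  | 0 => rfl
  | d + 1 => by
    rw [fa_succ, fa_succ, map_mul, map_mul, map_inv, map_fa l d]

end map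

variable {F V E Γ : Type*} [Field F] [AddCommGroup V] [Module F V] [Group E] [Group Γ]
  {ρ : E →* Module.End F V} {π : E →* Γ} {g k : ℕ} {A B C S : ℕ → E}

section hb

variable (Z : Sc π ρ) (L : Lk g A B C S) (hA : ∀ i, g ≤ i → A i = 1)
  (hS : ∀ i, g ≤ i + 1 → S i = 1) (hk : k + 4 ≤ g)
  (h0 : np ρ ((List.range (k + 1)).map A) = 0) (h1 : np ρ ((List.range k).map A) ≠ 0)
include Z L hA hS hk h0 h1

/-- **The relations `Hb` are exact.** -/
theorem hb_exact (H : Hb g (fun i => π (A i)) (fun i => π (B i)) (fun i => π (C i))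
    (fun i => π (S i))) : Hb g A B C S where
  SS := by
    intro i j hij
    have s1 : S i ∈ FF ρ A g k {i, i + 1, j, j + 1} :=
      S_FF L hA (by omega) h0 hS (by simp) (by simp)
    have s2 : S j ∈ FF ρ A g k {i, i + 1, j, j + 1} :=
      S_FF L hA (by omega) h0 hS (by simp) (by simp)
    refine FF_exact Z L hk h1 Finset.card_le_four (mul_mem s1 s2) (mul_mem s2 s1) ?_
    rw [map_mul, map_mul]
    exact H.SS i j hij
  br := by
    intro i hi
    have s1 : S i ∈ FF ρ A g k {i, i + 1, i + 1 + 1, i} :=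
      S_FF L hA (by omega) h0 hS (by simp) (by simp)
    have s2 : S (i + 1) ∈ FF ρ A g k {i, i + 1, i + 1 + 1, i} :=
      S_FF L hA (by omega) h0 hS (by simp) (by simp)
    refine FF_exact Z L hk h1 Finset.card_le_four (mul_mem (mul_mem s1 s2) s1)
      (mul_mem (mul_mem s2 s1) s2) ?_
    simp only [map_mul]
    exact H.br i hi
  R7 := by
    intro i hi
    have s : S i ∈ FF ρ A g k {i, i + 1, i, i} :=
      S_FF L hA (by omega) h0 hS (by simp) (by simp)
    have c : C i ∈ FF ρ A g k {i, i + 1, i, i} := C_FF L hA (by omega) h0 (by simp)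
    have i1 : io A B i ∈ FF ρ A g k {i, i + 1, i, i} := io_FF L hA (by omega) h0 (by simp)
    have i2 : io A B (i + 1) ∈ FF ρ A g k {i, i + 1, i, i} := io_FF L hA (by omega) h0 (by simp)
    refine FF_exact Z L hk h1 Finset.card_le_four (mul_mem (mul_mem s c) (inv_mem s))
      (mul_mem (mul_mem (inv_mem (mul_mem i1 i2)) c) (mul_mem i1 i2)) ?_
    have h2 := H.R7 i hi
    simp only [io] at h2
    simp only [io, map_mul, map_inv, map_pow]
    exact h2
  R6 := by
    intro i hi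
    have s : S i ∈ FF ρ A g k {i, i + 1, i, i} :=
      S_FF L hA (by omega) h0 hS (by simp) (by simp)
    have a : A i ∈ FF ρ A g k {i, i + 1, i, i} := A_FF L hA (by omega) h0 (by simp)
    have a' : A (i + 1) ∈ FF ρ A g k {i, i + 1, i, i} := A_FF L hA (by omega) h0 (by simp)
    have c : C i ∈ FF ρ A g k {i, i + 1, i, i} := C_FF L hA (by omega) h0 (by simp)
    have i1 : io A B i ∈ FF ρ A g k {i, i + 1, i, i} := io_FF L hA (by omega) h0 (by simp)
    have i2 : io A B (i + 1) ∈ FF ρ A g k {i, i + 1, i, i} := io_FF L hA (by omega) h0 (by simp)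
    refine FF_exact Z L hk h1 Finset.card_le_four (mul_mem s s)
      (mul_mem (mul_mem (mul_mem (mul_mem (mul_mem
      (mul_mem (mul_mem (mul_mem (mul_mem (inv_mem i1) (inv_mem i2)) c) i2) i1)
      (mul_mem (mul_mem (inv_mem i1) c) i1)) (mul_mem (mul_mem (inv_mem i2) c) i2)) c)
      (pow_mem (inv_mem a) 4)) (pow_mem (inv_mem a') 4)) ?_
    have h2 := H.R6 i hi
    simp only [io] at h2
    simp only [io, map_mul, map_inv, map_pow]
    exact h2

end hb

/-! ### The pushes -/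

section pu

variable {n : ℕ} {XA XB : ℕ → E} {K K' : Finset ℕ}

theorem PX_le_PG (X : Finset ℕ) : PX n A XA XB X K ≤ H60E.PG n A XA XB K := by
  rw [PX, H60E.PG, XS]
  apply Subgroup.closure_mono
  apply Set.insert_subset_insert
  rintro x (⟨l, _, hl, h⟩ | ⟨l, _, hl, hk, h⟩)
  · exact Or.inl ⟨l, hl, h⟩
  · exact Or.inr ⟨l, hl, hk, h⟩

theorem conj_closure {D' : Subgroup E} {Y : Set E} {t : E} (h : ∀ x ∈ Y, t * x * t⁻¹ ∈ D') :
    ∀ x ∈ Subgroup.closure Y, t * x * t⁻¹ ∈ D' := by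
  intro x hx
  have hle : Subgroup.closure Y ≤ D'.comap (MulAut.conj t).toMonoidHom := by
    rw [Subgroup.closure_le]
    exact h
  exact hle hx

/-- Conjugation of the generators. -/
theorem PG_of {a b : ℕ} (ha : a < n) {t : E}
    (h : ∀ c, c < n → ∀ y ∈ PX n A XA XB {a, b, c} K, t * y * t⁻¹ ∈ PX n A XA XB {a, b, c} K') :
    ∀ y ∈ H60E.PG n A XA XB K, t * y * t⁻¹ ∈ H60E.PG n A XA XB K' := by
  have h1 : ∀ c, c < n → ∀ y ∈ PX n A XA XB {a, b, c} K, t * y * t⁻¹ ∈ H60E.PG n A XA XB K' :=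
    fun c hc y hy => PX_le_PG _ (h c hc y hy)
  apply conj_closure
  rintro x (rfl | ⟨l, hl, rfl | rfl⟩ | ⟨l, hl, hk, rfl⟩)
  · exact h1 a ha _ (Subgroup.subset_closure (Or.inl rfl))
  · exact h1 l hl _ (Subgroup.subset_closure (Or.inr (Or.inl ⟨l, by simp, hl, Or.inl rfl⟩)))
  · exact h1 l hl _ (Subgroup.subset_closure (Or.inr (Or.inl ⟨l, by simp, hl, Or.inr rfl⟩)))
  · exact h1 l hl _ (Subgroup.subset_closure (Or.inr (Or.inr ⟨l, by simp, hl, hk, rfl⟩)))

/-- The data of the lifts of the pushes. -/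
structure Lf (π : E →* Γ) (ρ : E →* Module.End F V) (n k : ℕ) (A : ℕ → E) (YA YB : ℕ → Γ)
    (XA XB : ℕ → E) : Prop where
  pa : ∀ l, π (XA l) = YA l
  pb : ∀ l, π (XB l) = YB l
  fa : ∀ l, ∀ X : Finset ℕ, l ∈ X → n ∈ X → XA l ∈ FF ρ A (n + 1) k X
  fb : ∀ l, ∀ X : Finset ℕ, l ∈ X → n ∈ X → XB l ∈ FF ρ A (n + 1) k X

variable {YA YB : ℕ → Γ}

theorem Lf.fq (Y : Lf π ρ n k A YA YB XA XB) (l : ℕ) (X : Finset ℕ) (hl : l ∈ X) (hn : n ∈ X) :
    H60E.XQ XA XB l ∈ FF ρ A (n + 1) k X :=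
  mul_mem (mul_mem (Y.fb l X hl hn) (inv_mem (Y.fa l X hl hn))) (inv_mem (Y.fb l X hl hn))

theorem Lf.PX_le (Y : Lf π ρ n k A YA YB XA XB) {X X' : Finset ℕ} (hX : X ⊆ X') (hn : n ∈ X')
    (hAn : A n ∈ FF ρ A (n + 1) k X') : PX n A XA XB X K ≤ FF ρ A (n + 1) k X' := by
  rw [PX, Subgroup.closure_le]
  rintro x (rfl | ⟨l, hl, _, rfl | rfl⟩ | ⟨l, hl, _, _, rfl⟩)
  · exact hAn
  · exact Y.fa l _ (hX hl) hn
  · exact Y.fq l _ (hX hl) hn
  · exact Y.fb l _ (hX hl) hn

theorem Lf.map_PX' (Y : Lf π ρ n k A YA YB XA XB) (X : Finset ℕ) :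
    (PX n A XA XB X K).map π = PX n (fun i => π (A i)) YA YB X K := by
  rw [map_PX]
  have e1 : (fun i => π (XA i)) = YA := funext Y.pa
  have e2 : (fun i => π (XB i)) = YB := funext Y.pb
  rw [e1, e2]

/-- **The memberships lift.** -/
theorem Lf.conj (Y : Lf π ρ n k A YA YB XA XB) (Z : Sc π ρ) (L : Lk (n + 1) A B C S)
    (hA : ∀ i, n + 1 ≤ i → A i = 1) (hk : k + 4 ≤ n + 1)
    (h0 : np ρ ((List.range (k + 1)).map A) = 0) (h1 : np ρ ((List.range k).map A) ≠ 0)
    {a b c : ℕ} {t : E} (ht : t ∈ FF ρ A (n + 1) k {a, b, c, n})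
    (h : ∀ y ∈ PX n (fun i => π (A i)) YA YB {a, b, c} K,
      π t * y * (π t)⁻¹ ∈ PX n (fun i => π (A i)) YA YB {a, b, c} K') :
    ∀ y ∈ PX n A XA XB {a, b, c} K, t * y * t⁻¹ ∈ PX n A XA XB {a, b, c} K' := by
  intro y hy
  have hAn : A n ∈ FF ρ A (n + 1) k {a, b, c, n} := A_FF L hA (by omega) h0 (by simp)
  have hsub : ({a, b, c} : Finset ℕ) ⊆ {a, b, c, n} := by
    intro x hx
    simp only [Finset.mem_insert, Finset.mem_singleton] at hx ⊢
    tauto
  have h2 : π y ∈ PX n (fun i => π (A i)) YA YB {a, b, c} K := by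
    rw [← Y.map_PX']
    exact ⟨y, hy, rfl⟩
  have h3 := h _ h2
  rw [← Y.map_PX'] at h3
  obtain ⟨w, hw, hw'⟩ := h3
  have h4 : t * y * t⁻¹ = w := by
    refine FF_exact Z L hk h1 Finset.card_le_four
      (mul_mem (mul_mem ht (Y.PX_le hsub (by simp) hAn hy)) (inv_mem ht))
      (Y.PX_le hsub (by simp) hAn hw) ?_
    rw [map_mul, map_mul, map_inv, hw']
  rw [h4]
  exact hw

end pu

section main

variable {n : ℕ} (Z : Sc π ρ) (L : Lk (n + 1) A B C S) (hA : ∀ i, n + 1 ≤ i → A i = 1)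
  (hS : ∀ i, n + 1 ≤ i + 1 → S i = 1) (hk : k + 4 ≤ n + 1)
  (h0 : np ρ ((List.range (k + 1)).map A) = 0) (h1 : np ρ ((List.range k).map A) ≠ 0)
  {YA YB : ℕ → Γ}
  (H : Hb (n + 1) (fun i => π (A i)) (fun i => π (B i)) (fun i => π (C i)) (fun i => π (S i)))
  (P : Pu n (fun i => π (A i)) (fun i => π (B i)) (fun i => π (C i)) (fun i => π (S i)) YA YB)
  (PX' : PuX n (fun i => π (A i)) (fun i => π (B i)) (fun i => π (C i)) (fun i => π (S i)) YA YB)
  (hYA : ∀ l, n ≤ l → YA l = 1) (hYB : ∀ l, n ≤ l → YB l = 1)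
include L hA hk h0 H P hYA hYB

/-- The lifts of the pushes. -/
theorem exists_Lf : ∃ XA XB : ℕ → E, Lf π ρ n k A YA YB XA XB := by
  have h2 : ∀ l, ∃ x : E, π x = YA l ∧ ∀ X : Finset ℕ, l ∈ X → n ∈ X →
      x ∈ FF ρ A (n + 1) k X := by
    intro l
    by_cases hl : l < n
    · obtain ⟨j, hj⟩ := P.XQ_eq (lk_map π L) H (n - 1 - l) l (by omega)
      obtain ⟨j', hj'⟩ := P.ioQ l hl
      refine ⟨(A l * B l) ^ 3 * (A l * (fa C S l (n - 1 - l))⁻¹ * A n ^ j) *
        ((A l * B l) ^ 3)⁻¹ * (A n ^ j')⁻¹, ?_, ?_⟩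
      · have h3 : YA l = YA l * π (A n) ^ j' * (π (A n) ^ j')⁻¹ := by group
        rw [h3, ← hj', hj, ← map_fa]
        simp only [map_mul, map_inv, map_pow, map_zpow]
      · intro X hX hn
        have hi : (A l * B l) ^ 3 ∈ FF ρ A (n + 1) k X := io_FF L hA (by omega) h0 hX
        have ha : A l ∈ FF ρ A (n + 1) k X := A_FF L hA (by omega) h0 hX
        have han : A n ∈ FF ρ A (n + 1) k X := A_FF L hA (by omega) h0 hn
        have hf : fa C S l (n - 1 - l) ∈ FF ρ A (n + 1) k X :=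
          fa_FF L hA (by omega) h0 (by omega) hX
        exact mul_mem (mul_mem (mul_mem hi (mul_mem (mul_mem ha (inv_mem hf))
          (zpow_mem han _))) (inv_mem hi)) (inv_mem (zpow_mem han _))
    · exact ⟨1, by rw [map_one, hYA l (by omega)], fun _ _ _ => one_mem _⟩
  choose XA hXA using h2
  have h3 : ∀ l, ∃ x : E, π x = YB l ∧ ∀ X : Finset ℕ, l ∈ X → n ∈ X →
      x ∈ FF ρ A (n + 1) k X := by
    intro l
    by_cases hl : l < n
    · obtain ⟨j, hj⟩ := P.XB_eq hl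
      refine ⟨(XA l)⁻¹ * B l * XA l * (B l)⁻¹ * A n ^ j, ?_, ?_⟩
      · rw [hj, ← (hXA l).1]
        simp only [map_mul, map_inv, map_zpow]
      · intro X hX hn
        have hb : B l ∈ FF ρ A (n + 1) k X := B_FF L hA (by omega) h0 hX
        have hx := (hXA l).2 X hX hn
        have han : A n ∈ FF ρ A (n + 1) k X := A_FF L hA (by omega) h0 hn
        exact mul_mem (mul_mem (mul_mem (mul_mem (inv_mem hx) hb) hx) (inv_mem hb))
          (zpow_mem han _)
    · exact ⟨1, by rw [map_one, hYB l (by omega)], fun _ _ _ => one_mem _⟩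
  choose XB hXB using h3
  exact ⟨XA, XB, fun l => (hXA l).1, fun l => (hXB l).1, fun l => (hXA l).2,
    fun l => (hXB l).2⟩

include Z hS h1 PX'

/-- **The relations of the pushes are exact.** -/
theorem pu_exact : ∃ XA XB : ℕ → E, (∀ l, π (XA l) = YA l) ∧ (∀ l, π (XB l) = YB l) ∧
    Pu n A B C S XA XB := by
  obtain ⟨XA, XB, Y⟩ := exists_Lf L hA hk h0 H P hYA hYB
  refine ⟨XA, XB, Y.pa, Y.pb, ?_⟩
  have eA : ∀ {X : Finset ℕ} {l : ℕ}, l ∈ X → A l ∈ FF ρ A (n + 1) k X :=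
    fun hl => A_FF L hA (by omega) h0 hl
  have eB : ∀ {X : Finset ℕ} {l : ℕ}, l ∈ X → B l ∈ FF ρ A (n + 1) k X :=
    fun hl => B_FF L hA (by omega) h0 hl
  have eC : ∀ {X : Finset ℕ} {l : ℕ}, l ∈ X → C l ∈ FF ρ A (n + 1) k X :=
    fun hl => C_FF L hA (by omega) h0 hl
  have eI : ∀ {X : Finset ℕ} {l : ℕ}, l ∈ X → (A l * B l) ^ 3 ∈ FF ρ A (n + 1) k X :=
    fun hl => io_FF L hA (by omega) h0 hl
  have eS : ∀ {X : Finset ℕ} {l : ℕ}, l ∈ X → l + 1 ∈ X → S l ∈ FF ρ A (n + 1) k X :=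
    fun hl hl' => S_FF L hA (by omega) h0 hS hl hl'
  have pq : ∀ l, π (H60E.XQ XA XB l) = H60E.XQ YA YB l := by
    intro l
    simp only [H60E.XQ, map_mul, map_inv, Y.pa, Y.pb]
  have ex : ∀ {X : Finset ℕ}, X.card ≤ 4 → ∀ {x y : E}, x ∈ FF ρ A (n + 1) k X →
      y ∈ FF ρ A (n + 1) k X → π x = π y → x = y := fun hX _ _ hx hy hxy =>
    FF_exact Z L hk h1 hX hx hy hxy
  have cj := fun {K K' : Finset ℕ} {a b c : ℕ} {t : E} (ht) (h) =>
    Y.conj (K := K) (K' := K') Z L hA hk h0 h1 (a := a) (b := b) (c := c) (t := t) ht h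
  -- both memberships
  have two : ∀ {a b : ℕ} {K : Finset ℕ} {t : E}, a < n →
      (∀ c, t ∈ FF ρ A (n + 1) k {a, b, c, n}) →
      (∀ c, ∀ y ∈ PX n (fun i => π (A i)) YA YB {a, b, c} K,
        π t * y * (π t)⁻¹ ∈ PX n (fun i => π (A i)) YA YB {a, b, c} K ∧
        (π t)⁻¹ * y * π t ∈ PX n (fun i => π (A i)) YA YB {a, b, c} K) →
      ∀ y ∈ H60E.PG n A XA XB K, t * y * t⁻¹ ∈ H60E.PG n A XA XB K ∧
        t⁻¹ * y * t ∈ H60E.PG n A XA XB K := by
    intro a b K t ha ht h y hy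
    constructor
    · exact PG_of ha (fun c _ => cj (ht c) fun y hy => (h c y hy).1) y hy
    · have h2 := PG_of ha (t := t⁻¹) (K := K) (K' := K) (XA := XA) (XB := XB) (A := A) (b := b)
        (fun c _ => cj (inv_mem (ht c)) fun y hy => by
          rw [map_inv, inv_inv]
          exact (h c y hy).2) y hy
      rwa [inv_inv] at h2
  refine ⟨?_, ?_, ?_, ?_, ?_, ?_, ?_, ?_, ?_, ?_, ?_, ?_, ?_, ?_⟩
  · -- cA
    intro l hl
    have x1 := Y.fa l {l, n, l, n} (by simp) (by simp)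
    have x2 : A n ∈ FF ρ A (n + 1) k {l, n, l, n} := eA (by simp)
    refine ex Finset.card_le_four (mul_mem x1 x2) (mul_mem x2 x1) ?_
    rw [map_mul, map_mul, Y.pa]
    exact P.cA l hl
  · -- cB
    intro l hl
    have x1 := Y.fb l {l, n, l, n} (by simp) (by simp)
    have x2 : A n ∈ FF ρ A (n + 1) k {l, n, l, n} := eA (by simp)
    refine ex Finset.card_le_four (mul_mem x1 x2) (mul_mem x2 x1) ?_
    rw [map_mul, map_mul, Y.pb]
    exact P.cB l hl
  · -- pA
    intro k' hk' K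
    exact two (a := k') (b := k') hk' (fun c => eA (by simp)) fun c => PX'.pA k' hk' _ K
  · -- pC
    intro k' hk' K
    exact two (a := k') (b := k' + 1) (by omega) (fun c => eC (by simp)) fun c =>
      PX'.pC k' hk' _ K (by simp) (by simp)
  · -- pI
    intro k' hk' K
    refine two (a := k') (b := k') hk' (fun c => eI (by simp)) fun c => ?_
    rw [map_pow, map_mul]
    exact PX'.pI k' hk' _ K
  · -- pB
    intro k' hk' K hK
    exact two (a := k') (b := k') hk' (fun c => eB (by simp)) fun c => PX'.pB k' hk' _ K hK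
  · -- pS
    intro k' hk' K
    exact PG_of (a := k') (b := k' + 1) (by omega) fun c _ =>
      cj (eS (by simp) (by simp)) (PX'.pS k' hk' _ K (by simp) (by simp))
  · -- pSi
    intro k' hk' K y hy
    have h2 := PG_of (a := k') (b := k' + 1) (t := (S k')⁻¹)
      (K := K.map (Equiv.swap k' (k' + 1)).toEmbedding) (K' := K) (XA := XA) (XB := XB) (A := A)
      (n := n) (by omega) (fun c _ => cj (inv_mem (eS (by simp) (by simp))) fun y hy => by
          rw [map_inv, inv_inv]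
          exact PX'.pSi k' hk' _ K (by simp) (by simp) y hy) y hy
    rwa [inv_inv] at h2
  · -- last
    intro k' hk'
    obtain ⟨j, hj⟩ := P.last k' hk'
    refine ⟨j, ?_⟩
    have a1 : A k' ∈ FF ρ A (n + 1) k {k', n, k', n} := eA (by simp)
    have c1 : C k' ∈ FF ρ A (n + 1) k {k', n, k', n} := eC (by simp)
    have a2 : A n ∈ FF ρ A (n + 1) k {k', n, k', n} := eA (by simp)
    refine ex Finset.card_le_four (Y.fq k' {k', n, k', n} (by simp) (by simp))
      (mul_mem (mul_mem a1 (inv_mem c1)) (zpow_mem a2 j)) ?_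
    rw [pq, hj]
    simp only [map_mul, map_inv, map_zpow]
  · -- ioQ
    intro l hl
    obtain ⟨j, hj⟩ := P.ioQ l hl
    refine ⟨j, ?_⟩
    have i1 : (A l * B l) ^ 3 ∈ FF ρ A (n + 1) k {l, n, l, n} := eI (by simp)
    have a2 : A n ∈ FF ρ A (n + 1) k {l, n, l, n} := eA (by simp)
    refine ex Finset.card_le_four
      (mul_mem (mul_mem i1 (Y.fq l {l, n, l, n} (by simp) (by simp))) (inv_mem i1))
      (mul_mem (Y.fa l {l, n, l, n} (by simp) (by simp)) (zpow_mem a2 j)) ?_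
    simp only [map_mul, map_inv, map_zpow, map_pow, pq, Y.pa]
    exact hj
  · -- BXA
    intro l hl
    obtain ⟨j, hj⟩ := P.BXA l hl
    refine ⟨j, ?_⟩
    have b1 : B l ∈ FF ρ A (n + 1) k {l, n, l, n} := eB (by simp)
    have a2 : A n ∈ FF ρ A (n + 1) k {l, n, l, n} := eA (by simp)
    have x1 := Y.fa l {l, n, l, n} (by simp) (by simp)
    have x2 := Y.fb l {l, n, l, n} (by simp) (by simp)
    refine ex Finset.card_le_four (mul_mem (mul_mem b1 x1) (inv_mem b1))
      (mul_mem (mul_mem x1 x2) (zpow_mem a2 j)) ?_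
    simp only [map_mul, map_inv, map_zpow, Y.pa, Y.pb]
    exact hj
  · -- BAQ
    intro l hl
    obtain ⟨j, hj⟩ := P.BAQ l hl
    refine ⟨j, ?_⟩
    have b1 : B l ∈ FF ρ A (n + 1) k {l, n, l, n} := eB (by simp)
    have a1 : A l ∈ FF ρ A (n + 1) k {l, n, l, n} := eA (by simp)
    have a2 : A n ∈ FF ρ A (n + 1) k {l, n, l, n} := eA (by simp)
    have x1 := Y.fa l {l, n, l, n} (by simp) (by simp)
    have x2 := Y.fb l {l, n, l, n} (by simp) (by simp)
    have x3 := Y.fq l {l, n, l, n} (by simp) (by simp)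
    refine ex Finset.card_le_four
      (mul_mem (mul_mem (mul_mem b1 a1) x3) (inv_mem (mul_mem b1 a1)))
      (mul_mem (mul_mem (inv_mem x1) (inv_mem x2)) (zpow_mem a2 j)) ?_
    have hj' := hj
    simp only [map_mul, map_inv, map_zpow, Y.pa, Y.pb, pq]
    exact hj'
  · -- SXB
    intro k' hk'
    obtain ⟨j, hj⟩ := P.SXB k' hk'
    refine ⟨j, ?_⟩
    have s1 : S k' ∈ FF ρ A (n + 1) k {k', k' + 1, n, n} := eS (by simp) (by simp)
    have a2 : A n ∈ FF ρ A (n + 1) k {k', k' + 1, n, n} := eA (by simp)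
    have x1 := Y.fb k' {k', k' + 1, n, n} (by simp) (by simp)
    have x2 := Y.fb (k' + 1) {k', k' + 1, n, n} (by simp) (by simp)
    refine ex Finset.card_le_four (mul_mem (mul_mem s1 x2) (inv_mem s1))
      (mul_mem x1 (zpow_mem a2 j)) ?_
    simp only [map_mul, map_inv, map_zpow, Y.pb]
    exact hj
  · -- SXQ
    intro k' hk'
    obtain ⟨j, hj⟩ := P.SXQ k' hk'
    refine ⟨j, ?_⟩
    have s1 : S k' ∈ FF ρ A (n + 1) k {k', k' + 1, n, n} := eS (by simp) (by simp)
    have a2 : A n ∈ FF ρ A (n + 1) k {k', k' + 1, n, n} := eA (by simp)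
    have x1 := Y.fq k' {k', k' + 1, n, n} (by simp) (by simp)
    have x2 := Y.fq (k' + 1) {k', k' + 1, n, n} (by simp) (by simp)
    refine ex Finset.card_le_four (mul_mem (mul_mem s1 x2) (inv_mem s1))
      (mul_mem x1 (zpow_mem a2 j)) ?_
    simp only [map_mul, map_inv, map_zpow, pq]
    exact hj

end main

end Pool.MP_59b15d_al.H40D
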