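import Mathlib
import Pool.Agent.H.MP_59b15d_al.h40d.ExactP
import Pool.Agent.H.MP_59b15d_al.h60e.Inst
import Pool.Agent.H.MP_59b15d_al.h46u.LemU2

set_option autoImplicit false

/-!
# The stability of the class `Un` and the vanishing of exact families, in a central extension

Let `π : E →* Γ` be a homomorphism whose kernel acts by scalars on the irreducible representation
`ρ` of `E`. If the relations `Lk` hold in `E`, the relations `Hb`, `Pu` in `Γ`, and the products of
`k + 1` of the operators `ρ (A i) - 1` vanish, `k + 4 ≤ g`, then `LemU` and the vanishing of exact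
families hold for `ρ` and for its dual.
-/

namespace Pool.MP_59b15d_al.H40D

open Module Pool.MP_59b15d_al.H95E Pool.MP_59b15d_al.H93E Pool.MP_59b15d_al.H11D
open Pool.MP_59b15d_al.H60E Pool.MP_59b15d_al.H46U

/-! ### Composition with a homomorphism -/

section comp

variable {F V E E' : Type*} [Field F] [AddCommGroup V] [Module F V] [Group E] [Group E']
  (f : E →* E') (ρ : E' →* Module.End F V) {A B C S : ℕ → E} {g m : ℕ}

theorem np_comp (l : List ℕ) :
    np (ρ.comp f) (l.map A) = np ρ (l.map fun i => f (A i)) := by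
  rw [np, np, List.map_map, List.map_map]
  rfl

theorem du_comp : du (ρ.comp f) = (du ρ).comp f := by
  ext x φ v
  rw [du_apply, MonoidHom.comp_apply, MonoidHom.comp_apply, du_apply, map_inv]

theorem un_comp {U : Submodule F V} : Un (ρ.comp f) A B C S g U ↔
    Un ρ (fun i => f (A i)) (fun i => f (B i)) (fun i => f (C i)) (fun i => f (S i)) g U := by
  constructor
  · intro h
    refine ⟨h.fA, fun l n hln => ?_, fun i hi => ?_⟩
    · rw [← map_fa]
      exact h.fF l n hln
    · rw [← map_mul, ← map_pow]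
      exact h.sI i hi
  · intro h
    refine ⟨h.fA, fun l n hln => ?_, fun i hi => ?_⟩
    · have h1 := h.fF l n hln
      rw [← map_fa] at h1
      exact h1
    · have h1 := h.sI i hi
      rw [← map_mul, ← map_pow] at h1
      exact h1

theorem lemU_comp (h : LemU ρ (fun i => f (A i)) (fun i => f (B i)) (fun i => f (C i))
    (fun i => f (S i)) g) : LemU (ρ.comp f) A B C S g := by
  intro U hU i hi
  have h1 := h U ((un_comp f ρ).1 hU) i hi
  refine ⟨(un_comp f ρ).2 h1.1, (un_comp f ρ).2 ?_⟩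
  have e : mv (ρ.comp f) (S i)⁻¹ U = mv ρ (f (S i))⁻¹ U := by
    change U.map (ρ (f (S i)⁻¹)) = U.map (ρ (f (S i))⁻¹)
    rw [map_inv]
  rw [e]
  exact h1.2

theorem ex_comp {W : Submodule F V} (h : Ex (ρ.comp f) A B C S g m W) :
    Ex ρ (fun i => f (A i)) (fun i => f (B i)) (fun i => f (C i)) (fun i => f (S i)) g m W := by
  refine ⟨h.fA, h.fC, h.fB, h.sS, fun i h1 h2 => ?_, fun i h1 h2 w hw => ?_⟩
  · rw [← map_mul, ← map_pow]
    exact h.sI i h1 h2
  · have h3 := h.ii i h1 h2 w hw
    have e : mv (ρ.comp f) (A i * B i) W = mv ρ (f (A i) * f (B i)) W := by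
      change W.map (ρ (f (A i * B i))) = W.map (ρ (f (A i) * f (B i)))
      rw [map_mul f]
    rw [e] at h3
    exact h3

end comp

section np

variable {F V E : Type*} [Field F] [AddCommGroup V] [Module F V] [Group E]
  {ρ : E →* Module.End F V} {A : ℕ → E}

theorem np_range_le {k l : ℕ} (hkl : k ≤ l) (h0 : np ρ ((List.range k).map A) = 0) :
    np ρ ((List.range l).map A) = 0 := by
  obtain ⟨d, rfl⟩ := Nat.exists_eq_add_of_le hkl
  rw [List.range_add, List.map_append]
  ext v
  rw [np_append, h0]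
  rfl

end np

/-! ### The main statement -/

section main

variable {F V E Γ : Type*} [Field F] [AddCommGroup V] [Module F V] [Group E] [Group Γ]
  {π : E →* Γ} {ρ : E →* Module.End F V} {n k : ℕ} {A B C S : ℕ → E} {YA YB : ℕ → Γ}

/-- The conclusion. -/
structure EU (ρ : E →* Module.End F V) (A B C S : ℕ → E) (g : ℕ) : Prop where
  hU : LemU ρ A B C S g
  hU' : LemU (du ρ) A B C S g
  hEV : ∀ k ≤ g, np ρ ((List.range k).map A) ≠ 0 → ∀ m < k, ∀ W, Ex ρ A B C S g m W → W = ⊥
  hEV' : ∀ k ≤ g, np (du ρ) ((List.range k).map A) ≠ 0 →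
    ∀ m < k, ∀ W, Ex (du ρ) A B C S g m W → W = ⊥

/-- The case of exact relations. -/
theorem eu_exact [FiniteDimensional F V] (L : Lk (n + 1) A B C S) (H : Hb (n + 1) A B C S)
    {XA XB : ℕ → E} (P : Pu n A B C S XA XB)
    (hgen : ∀ K : Subgroup E, (∀ i, i < n + 1 → A i ∈ K) → (∀ i, i < n + 1 → B i ∈ K) →
      (∀ i, i + 1 < n + 1 → C i ∈ K) → K = ⊤)
    (hirr : ∀ U : Submodule F V, (∀ g, ∀ u ∈ U, ρ g u ∈ U) → U = ⊥ ∨ U = ⊤) :
    EU ρ A B C S (n + 1) where
  hU := lemU L H
  hU' := lemU L H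
  hEV := fun k hk hne m hm W X =>
    EV L H P hgen hirr m (List.range (m + 1)) List.nodup_range
      (fun i hi => by have := List.mem_range.1 hi; omega) List.length_range
      (fun h0 => hne (np_range_le (by omega) h0)) W X
  hEV' := fun k hk hne m hm W X =>
    EV L H P hgen (du_irr hirr) m (List.range (m + 1)) List.nodup_range
      (fun i hi => by have := List.mem_range.1 hi; omega) List.length_range
      (fun h0 => hne (np_range_le (by omega) h0)) W X

theorem sub_bot [Subsingleton V] (W : Submodule F V) : W = ⊥ := by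
  rw [eq_bot_iff]
  intro v _
  rw [Subsingleton.elim v 0]
  exact Submodule.zero_mem _

theorem lemU_triv [Subsingleton V] (σ : E →* Module.End F V) {g : ℕ} : LemU σ A B C S g := by
  intro U hU i hi
  rw [sub_bot (mv σ (S i) U), sub_bot (mv σ (S i)⁻¹ U), ← sub_bot U]
  exact ⟨hU, hU⟩

/-- The case of a kernel which acts faithfully. -/
theorem eu_faith [FiniteDimensional F V] (Z : Sc π ρ) (L : Lk (n + 1) A B C S)
    (hA : ∀ i, n + 1 ≤ i → A i = 1)
    (hS : ∀ i, n + 1 ≤ i + 1 → S i = 1) (hk : k + 4 ≤ n + 1)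
    (h0 : np ρ ((List.range (k + 1)).map A) = 0)
    (H : Hb (n + 1) (fun i => π (A i)) (fun i => π (B i)) (fun i => π (C i)) (fun i => π (S i)))
    (P : Pu n (fun i => π (A i)) (fun i => π (B i)) (fun i => π (C i)) (fun i => π (S i)) YA YB)
    (PX' : PuX n (fun i => π (A i)) (fun i => π (B i)) (fun i => π (C i)) (fun i => π (S i))
      YA YB)
    (hYA : ∀ l, n ≤ l → YA l = 1) (hYB : ∀ l, n ≤ l → YB l = 1)
    (hgen : ∀ K : Subgroup E, (∀ i, i < n + 1 → A i ∈ K) → (∀ i, i < n + 1 → B i ∈ K) →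
      (∀ i, i + 1 < n + 1 → C i ∈ K) → K = ⊤)
    (hirr : ∀ U : Submodule F V, (∀ g, ∀ u ∈ U, ρ g u ∈ U) → U = ⊥ ∨ U = ⊤) :
    EU ρ A B C S (n + 1) := by
  classical
  rcases subsingleton_or_nontrivial V with hV | hV
  · -- everything is trivial
    have hd : Subsingleton (Module.Dual F V) := by
      constructor
      intro φ ψ
      ext v
      rw [Subsingleton.elim v 0, map_zero, map_zero]
    exact ⟨lemU_triv ρ, lemU_triv (du ρ), fun _ _ _ _ _ W _ => sub_bot W,
      fun _ _ _ _ _ W _ => sub_bot W⟩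
  · have hex : ∃ k, np ρ ((List.range (k + 1)).map A) = 0 := ⟨k, h0⟩
    have h1 : Nat.find hex ≤ k := Nat.find_min' hex h0
    have h2 := Nat.find_spec hex
    have h3 : np ρ ((List.range (Nat.find hex)).map A) ≠ 0 := by
      rcases Nat.eq_zero_or_pos (Nat.find hex) with h4 | h4
      · rw [h4]
        intro h5
        obtain ⟨v, hv⟩ := exists_ne (0 : V)
        apply hv
        have h6 := LinearMap.congr_fun h5 v
        exact h6
      · have h5 := Nat.find_min hex (m := Nat.find hex - 1) (by omega)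
        rwa [Nat.sub_add_cancel h4] at h5
    generalize Nat.find hex = k' at h1 h2 h3
    obtain ⟨XA, XB, -, -, P'⟩ := pu_exact Z L hA hS (k := k') (by omega) h2 h3 H P PX' hYA hYB
    exact eu_exact L (hb_exact Z L hA hS (k := k') (by omega) h2 h3 H) P' hgen hirr

/-- **The general case**: the kernel acts by scalars. -/
theorem eu_all [FiniteDimensional F V] (hsc : ∀ z, π z = 1 → ∃ c : F, ∀ v, ρ z v = c • v)
    (L : Lk (n + 1) A B C S) (hA : ∀ i, n + 1 ≤ i → A i = 1)
    (hS : ∀ i, n + 1 ≤ i + 1 → S i = 1) (hk : k + 4 ≤ n + 1)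
    (h0 : np ρ ((List.range (k + 1)).map A) = 0)
    (H : Hb (n + 1) (fun i => π (A i)) (fun i => π (B i)) (fun i => π (C i)) (fun i => π (S i)))
    (P : Pu n (fun i => π (A i)) (fun i => π (B i)) (fun i => π (C i)) (fun i => π (S i)) YA YB)
    (PX' : PuX n (fun i => π (A i)) (fun i => π (B i)) (fun i => π (C i)) (fun i => π (S i))
      YA YB)
    (hYA : ∀ l, n ≤ l → YA l = 1) (hYB : ∀ l, n ≤ l → YB l = 1)
    (hgen : ∀ K : Subgroup E, (∀ i, i < n + 1 → A i ∈ K) → (∀ i, i < n + 1 → B i ∈ K) →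
      (∀ i, i + 1 < n + 1 → C i ∈ K) → K = ⊤)
    (hirr : ∀ U : Submodule F V, (∀ g, ∀ u ∈ U, ρ g u ∈ U) → U = ⊥ ∨ U = ⊤) :
    EU ρ A B C S (n + 1) := by
  let N : Subgroup E := π.ker ⊓ ρ.ker
  have hN1 : N ≤ π.ker := inf_le_left
  have hN2 : N ≤ ρ.ker := inf_le_right
  let f : E →* E ⧸ N := QuotientGroup.mk' N
  let π' : E ⧸ N →* Γ := QuotientGroup.lift N π hN1
  let ρ' : E ⧸ N →* Module.End F V := QuotientGroup.lift N ρ hN2
  have e1 : ∀ x, π' (f x) = π x := fun x => rfl
  have e2 : ρ'.comp f = ρ := by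
    ext x v
    rfl
  have hf : Function.Surjective f := QuotientGroup.mk'_surjective N
  have Z : Sc π' ρ' := by
    constructor
    · intro z hz
      obtain ⟨x, rfl⟩ := hf z
      exact hsc x hz
    · intro z hz hv
      obtain ⟨x, rfl⟩ := hf z
      rw [show f x = 1 ↔ x ∈ N from QuotientGroup.eq_one_iff x]
      exact ⟨hz, LinearMap.ext hv⟩
  have h0' : np ρ' ((List.range (k + 1)).map fun i => f (A i)) = 0 := by
    rw [← np_comp f ρ', e2, h0]
  have X := eu_faith (ρ := ρ') (π := π') (YA := YA) (YB := YB) Z (lk_map f L)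
    (fun i hi => by rw [hA i hi, map_one]) (fun i hi => by rw [hS i hi, map_one]) hk h0' H P PX'
    hYA hYB (fun K h1 h2 h3 => by
      have h4 := hgen (K.comap f) h1 h2 h3
      rw [eq_top_iff]
      intro y _
      obtain ⟨x, rfl⟩ := hf y
      have h5 : x ∈ K.comap f := by rw [h4]; exact Subgroup.mem_top x
      exact h5) (fun U hU => hirr U fun x u hu => hU (f x) u hu)
  have e3 : du ρ = (du ρ').comp f := by rw [← du_comp, e2]
  refine ⟨?_, ?_, ?_, ?_⟩
  · rw [← e2]
    exact lemU_comp f ρ' X.hU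
  · rw [e3]
    exact lemU_comp f (du ρ') X.hU'
  · intro k' hk' hne m hm W hW
    refine X.hEV k' hk' ?_ m hm W (ex_comp f ρ' (by rw [e2]; exact hW))
    rwa [← np_comp f ρ', e2]
  · intro k' hk' hne m hm W hW
    refine X.hEV' k' hk' ?_ m hm W (ex_comp f (du ρ') (by rw [← e3]; exact hW))
    rwa [← np_comp f (du ρ'), ← e3]

end main

end Pool.MP_59b15d_al.H40D
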