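import Mathlib
import Pool.Agent.H.MP_59b15d_al.h52e.Done

set_option autoImplicit false

/-!
# The stability of the class `Un` and the vanishing of exact families, in a central extension of
the mapping class group
-/

namespace Pool.MP_59b15d_al.H40D

universe w

open Module Pool.MP_59b15d_al.H95E Pool.MP_59b15d_al.H93E Pool.MP_59b15d_al.H11D
open Pool.MP_59b15d_al.H60E Pool.MP_59b15d_al.H46U
open Pool.MP_59b15d_al.H24T Pool.MP_59b15d_al.H76R Pool.MP_59b15d_al.H73E
open Pool.MP_59b15d_al.H60G Pool.MP_59b15d_al.H40L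
open Pool.Agent.H.MP_59b15d_al.Lin

theorem gXA_ge {n : ℕ} {G : Type w} [Group G] {a b : Fin (n + 1) → G} (h : IsSurf a b) {l : ℕ}
    (hl : n ≤ l) : gXA h l = 1 := by
  apply Subtype.ext
  rw [gXA_coe, XA, ga_ge (by omega), map_one]
  rfl

theorem gXB_ge {n : ℕ} {G : Type w} [Group G] {a b : Fin (n + 1) → G} (h : IsSurf a b) {l : ℕ}
    (hl : n ≤ l) : gXB h l = 1 := by
  apply Subtype.ext
  rw [gXB_coe, XB, gb_ge (by omega), map_one]
  rfl

variable {m : ℕ} {G : Type w} [Group G] {a b : Fin m → G} (h : IsSurf a b)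
variable {F V E : Type*} [Field F] [AddCommGroup V] [Module F V] [FiniteDimensional F V]
  [Group E] {π : E →* MCG a b} {ρ : E →* Module.End F V} {A B C S : ℕ → E}

/-- **`LemU` and the vanishing of exact families** for an irreducible representation of a group `E`
with a homomorphism `π` to the mapping class group whose kernel acts by scalars. -/
theorem eu_mcg (hsc : ∀ z, π z = 1 → ∃ c : F, ∀ v, ρ z v = c • v)
    (pA : ∀ i, π (A i) = uA h i) (pB : ∀ i, π (B i) = uB h i) (pC : ∀ i, π (C i) = uC h i)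
    (pS : ∀ i, π (S i) = uS h i) (L : Lk m A B C S) (hA : ∀ i, m ≤ i → A i = 1)
    (hS : ∀ i, m ≤ i + 1 → S i = 1) {k : ℕ} (hk : k + 4 ≤ m)
    (h0 : np ρ ((List.range (k + 1)).map A) = 0)
    (hgen : ∀ K : Subgroup E, (∀ i, i < m → A i ∈ K) → (∀ i, i < m → B i ∈ K) →
      (∀ i, i + 1 < m → C i ∈ K) → K = ⊤)
    (hirr : ∀ U : Submodule F V, (∀ g, ∀ u ∈ U, ρ g u ∈ U) → U = ⊥ ∨ U = ⊤) :
    EU ρ A B C S m := by
  rcases m with _ | n
  · omega
  · have eA : (fun i => π (A i)) = uA h := funext pA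
    have eB : (fun i => π (B i)) = uB h := funext pB
    have eC : (fun i => π (C i)) = uC h := funext pC
    have eS : (fun i => π (S i)) = uS h := funext pS
    refine eu_all (π := π) (YA := gXA h) (YB := gXB h) hsc L hA hS hk h0 ?_ ?_ ?_
      (fun l hl => gXA_ge h hl) (fun l hl => gXB_ge h hl) hgen hirr
    · rw [eA, eB, eC, eS]
      exact uhb h (Pool.Agent.H.MP_59b15d_al.H52E.lkm h)
    · rw [eA, eB, eC, eS]
      exact pu_mcg h
    · rw [eA, eB, eC, eS]
      exact pux_sub h (fun _ => rfl) (fun _ => rfl) (fun _ => rfl) (fun _ hk => TrS_lt h hk)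
        (fun _ => rfl) fun _ => rfl

end Pool.MP_59b15d_al.H40D
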