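import Mathlib
import Pool.Agent.H.MP_59b15d_al.h40d.EvuM
import Pool.Agent.H.MP_59b15d_al.h98p.FrontA
import Pool.Agent.H.MP_59b15d_al.h98p.UnipA

set_option autoImplicit false

/-!
# Two bounding pairs, for an irreducible representation of a central extension of the mapping class
group of dimension less than `2 ^ (m - 1)`
-/

namespace Pool.MP_59b15d_al.H40D

universe u v w x

open Module Pool.MP_59b15d_al.H95E Pool.MP_59b15d_al.H93E Pool.MP_59b15d_al.H11D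
open Pool.MP_59b15d_al.H60E Pool.MP_59b15d_al.H46U Pool.MP_59b15d_al.H47E
open Pool.MP_59b15d_al.H24T Pool.MP_59b15d_al.H76R Pool.MP_59b15d_al.H73E
open Pool.MP_59b15d_al.H60G Pool.MP_59b15d_al.H40L
open Pool.Agent.H.MP_59b15d_al.Lin
open Pool.Agent.H.MP_59b15d_al.H52E (pow_even pow_odd)

variable {m : ℕ} {G : Type w} [Group G] {a b : Fin m → G} (h : IsSurf a b)
variable {F : Type u} {V : Type v} [Field F] [AddCommGroup V] [Module F V]
  [FiniteDimensional F V] {E : Type x} [Group E] {π : E →* MCG a b} {ρ : E →* Module.End F V}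
  {A B C S T : ℕ → E}

/-- A product of few of the operators `ρ (A i) - 1` vanishes. -/
theorem front_deg (L : Lk m A B C S) (R : Ln m A B C S) (hm : 6 ≤ m)
    (hdim : finrank F V < 2 ^ (m - 1)) :
    ∃ k, k + 4 ≤ m ∧ np ρ ((List.range (k + 1)).map A) = 0 := by
  rcases Nat.even_or_odd' m with ⟨u, hu | hu⟩
  · refine ⟨u - 2, by omega, ?_⟩
    have h1 := H98P.mixedA L R ρ (t := u - 3) (s := 2) (by omega) (by omega)
      (hdim.trans (by rw [hu]; exact pow_even (by omega)))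
    rwa [show u - 3 + 2 = u - 2 + 1 by omega] at h1
  · refine ⟨u - 1, by omega, ?_⟩
    exact H98P.mixedA L R ρ (t := u - 1) (s := 1) le_rfl (by omega)
      (hdim.trans (by rw [show m - 1 = 2 * u by omega]; exact pow_odd (by omega)))

/-- **Two consecutive bounding pairs** act in the same way, and the twists are unipotent. -/
theorem pairs_mcg (hm : 6 ≤ m) (hdim : finrank F V < 2 ^ (m - 1))
    (hsc : ∀ z, π z = 1 → ∃ c : F, ∀ v, ρ z v = c • v)
    (pA : ∀ i, π (A i) = uA h i) (pB : ∀ i, π (B i) = uB h i) (pC : ∀ i, π (C i) = uC h i)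
    (pS : ∀ i, π (S i) = uS h i) (L : Lk m A B C S) (R : Ln m A B C S)
    (P : ∀ q, 0 < q → q + 1 < m → Bp m A B C S q (T q)) (hA : ∀ i, m ≤ i → A i = 1)
    (hS : ∀ i, m ≤ i + 1 → S i = 1)
    (star : ∀ q, 0 < q → q + 1 < m → fa C S (q - 1) 1 ∈
      Subgroup.closure {C (q - 1), C q, A (q - 1), A q, A (q + 1), B q})
    (hgen : ∀ K : Subgroup E, (∀ i, i < m → A i ∈ K) → (∀ i, i < m → B i ∈ K) →
      (∀ i, i + 1 < m → C i ∈ K) → K = ⊤)
    (hirr : ∀ U : Submodule F V, (∀ g, ∀ u ∈ U, ρ g u ∈ U) → U = ⊥ ∨ U = ⊤) :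
    (∃ k, 2 * k + 4 ≤ m ∧ (ρ (A 0) - 1) ^ (k + 1) = 0) ∧
    ∃ q, 0 < q ∧ q + 2 < m ∧ ρ (A q) = ρ (T q) ∧ ρ (A (q + 1)) = ρ (T (q + 1)) := by
  obtain ⟨k, hk, h0⟩ := front_deg (ρ := ρ) L R hm hdim
  have X := eu_mcg h hsc pA pB pC pS L hA hS hk h0 hgen hirr
  obtain ⟨⟨k', hk', h0'⟩, h1⟩ := H98P.pairs_two L R P hA star ρ X.hU X.hU' X.hEV X.hEV' hm hdim
  exact ⟨⟨k', hk', H98P.unipA L R (by omega) (by omega) ρ h0'⟩, h1⟩

end Pool.MP_59b15d_al.H40D
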