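import Mathlib
import Pool.Agent.H.MP_59b15d_al.h40d.PairsM
import Pool.Agent.H.MP_59b15d_al.deg.LiftF

set_option autoImplicit false

/-!
# Two bounding pairs in a perfect central extension of the mapping class group
-/

namespace Pool.MP_59b15d_al.H40D

universe u v w x

open Module Pool.MP_59b15d_al.H95E Pool.MP_59b15d_al.H93E Pool.MP_59b15d_al.H11D
open Pool.MP_59b15d_al.H60E Pool.MP_59b15d_al.H46U Pool.MP_59b15d_al.H47E
open Pool.MP_59b15d_al.H24T Pool.MP_59b15d_al.H76R Pool.MP_59b15d_al.H73E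
open Pool.MP_59b15d_al.H60G Pool.MP_59b15d_al.H40L
open Pool.Agent.H.MP_59b15d_al.Lin Pool.Agent.H.MP_59b15d_al.Lft
open scoped commutatorElement

section perf

variable {E Γ : Type*} [Group E] [Group Γ] {π : E →* Γ}

/-- In a perfect central extension a subgroup which maps onto the quotient is everything. -/
theorem eq_top_of_map (hC : CE π) (hperf : ∀ x : E, x ∈ commutator E) {K : Subgroup E}
    (hK : K.map π = ⊤) : K = ⊤ := by
  have h1 : ∀ x : E, ∃ k ∈ K, ∃ z, π z = 1 ∧ x = k * z := by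
    intro x
    have h2 : π x ∈ K.map π := by rw [hK]; exact Subgroup.mem_top _
    obtain ⟨k, hk, hkx⟩ := h2
    exact ⟨k, hk, k⁻¹ * x, by rw [map_mul, map_inv, hkx, inv_mul_cancel], by group⟩
  have h2 : commutator E ≤ K := by
    rw [commutator_def, Subgroup.commutator_le]
    intro x _ y _
    obtain ⟨k, hk, z, hz, rfl⟩ := h1 x
    obtain ⟨l, hl, t, ht, rfl⟩ := h1 y
    have cz := hC.cen z hz
    have ct := hC.cen t ht
    have e : ⁅k * z, l * t⁆ = k * l * k⁻¹ * l⁻¹ := by
      rw [commutatorElement_def]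
      calc k * z * (l * t) * (k * z)⁻¹ * (l * t)⁻¹ =
          k * (z * (l * t)) * z⁻¹ * k⁻¹ * t⁻¹ * l⁻¹ := by group
        _ = k * ((l * t) * z) * z⁻¹ * k⁻¹ * t⁻¹ * l⁻¹ := by rw [cz]
        _ = k * l * (t * k⁻¹) * t⁻¹ * l⁻¹ := by group
        _ = k * l * (k⁻¹ * t) * t⁻¹ * l⁻¹ := by rw [ct]
        _ = _ := by group
    rw [e]
    exact mul_mem (mul_mem (mul_mem hk hl) (inv_mem hk)) (inv_mem hl)
  rw [eq_top_iff]
  exact fun x _ => h2 (hperf x)

/-- The lift of `T` which is braided with `y` is unique. -/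
theorem braid_unique (hC : CE π) {s t y : E} (hst : π s = π t) (hs : s * y * s = y * s * y)
    (ht : t * y * t = y * t * y) : s = t := by
  obtain ⟨z, hz⟩ : ∃ z, z = s * t⁻¹ := ⟨_, rfl⟩
  have h1 : π z = 1 := by rw [hz, map_mul, map_inv, hst, mul_inv_cancel]
  have h2 := hC.cen z h1
  have e : s = z * t := by rw [hz]; group
  rw [e] at hs
  have h3 : z * t * y * (z * t) = z * (z * (t * y * t)) := by
    calc z * t * y * (z * t) = z * (t * y * z) * t := by group
      _ = z * (z * (t * y)) * t := by rw [h2 (t * y)]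
      _ = _ := by group
  have h4 : y * (z * t) * y = z * (y * t * y) := by
    calc y * (z * t) * y = (y * z) * t * y := by group
      _ = (z * y) * t * y := by rw [h2 y]
      _ = _ := by group
  rw [h3, h4, ht] at hs
  have h5 := mul_left_cancel hs
  have h6 : z = 1 := by
    have h7 : z * (y * t * y) = 1 * (y * t * y) := by rw [one_mul]; exact h5
    exact mul_right_cancel h7
  rw [e, h6, one_mul]

end perf

variable {m : ℕ} {G : Type w} [Group G] {a b : Fin m → G} (h : IsSurf a b)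
variable {F : Type u} {V : Type v} [Field F] [AddCommGroup V] [Module F V]
  [FiniteDimensional F V] {E : Type x} [Group E] {π : E →* MCG a b} {ρ : E →* Module.End F V}
  {A B C S : ℕ → E}

/-- The lifts of the generators generate a perfect central extension. -/
theorem gen_LM (hC : CE π) (hperf : ∀ x : E, x ∈ commutator E) (hm : 0 < m)
    (M : LM h π A B C S) (K : Subgroup E) (hA : ∀ i, i < m → A i ∈ K)
    (hB : ∀ i, i < m → B i ∈ K) (hC' : ∀ i, i + 1 < m → C i ∈ K) : K = ⊤ := by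
  apply eq_top_of_map hC hperf
  apply Pool.Agent.H.MP_59b15d_al.H52E.gen_u h hm
  · intro i hi
    rw [← M.pA]
    exact ⟨_, hA i hi, rfl⟩
  · intro i hi
    rw [← M.pB]
    exact ⟨_, hB i hi, rfl⟩
  · intro i hi
    rw [← M.pC]
    exact ⟨_, hC' i hi, rfl⟩

/-- **Two consecutive bounding pairs** act in the same way on an irreducible representation of
dimension less than `2 ^ (m - 1)` of a perfect central extension of the mapping class group, and the
twists are unipotent. -/
theorem pairs_LM (hC : CE π) (hperf : ∀ x : E, x ∈ commutator E) (M : LM h π A B C S)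
    (hm : 6 ≤ m) (hdim : finrank F V < 2 ^ (m - 1))
    (hsc : ∀ z, π z = 1 → ∃ c : F, ∀ v, ρ z v = c • v)
    (hirr : ∀ U : Submodule F V, (∀ g, ∀ u ∈ U, ρ g u ∈ U) → U = ⊥ ∨ U = ⊤) :
    (∃ k, 2 * k + 4 ≤ m ∧ (ρ (A 0) - 1) ^ (k + 1) = 0) ∧
    ∃ q q' : Fin m, (q' : ℕ) = q + 1 ∧ 0 < (q : ℕ) ∧ (q : ℕ) + 2 < m ∧
      (∀ T, π T = uT h q → Bp m A B C S q T → ρ (A q) = ρ T) ∧
      ∀ T, π T = uT h q' → Bp m A B C S q' T → ρ (A q') = ρ T := by
  choose T hT using M.bp
  let T' : ℕ → E := fun q => if hq : q < m then T ⟨q, hq⟩ else 1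
  have hT' : ∀ q (hq : q < m), T' q = T ⟨q, hq⟩ := fun q hq => dif_pos hq
  obtain ⟨h1, q, h2, h3, h4, h5⟩ := pairs_mcg (T := T') h hm hdim hsc M.pA M.pB M.pC M.pS M.lk
    M.ln (fun q h1 h2 => by
      rw [hT' q (by omega)]
      exact (hT ⟨q, by omega⟩).2) M.oA M.oS (fun q h1 h2 => by
      obtain ⟨i, rfl⟩ : ∃ i, q = i + 1 := ⟨q - 1, by omega⟩
      exact M.lnz.star (by omega)) (gen_LM h hC hperf (by omega) M) hirr
  refine ⟨h1, ⟨q, by omega⟩, ⟨q + 1, by omega⟩, rfl, h2, h3, fun t ht ht' => ?_,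
    fun t ht ht' => ?_⟩
  · rw [hT' q (by omega)] at h4
    have e : t = T ⟨q, by omega⟩ := braid_unique hC (ht.trans (hT ⟨q, by omega⟩).1.symm) ht'.brT
      (hT ⟨q, by omega⟩).2.brT
    rw [e]
    exact h4
  · rw [hT' (q + 1) (by omega)] at h5
    have e : t = T ⟨q + 1, by omega⟩ :=
      braid_unique hC (ht.trans (hT ⟨q + 1, by omega⟩).1.symm) ht'.brT
        (hT ⟨q + 1, by omega⟩).2.brT
    rw [e]
    exact h5

end Pool.MP_59b15d_al.H40D
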