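import Mathlib
import Pool.Agent.H.MP_59b15d_al.h40d.PairsL
import Pool.Agent.H.MP_59b15d_al.h73p.Concl
import Pool.Agent.H.MP_59b15d_al.lin.SipKer
import Pool.Agent.H.MP_59b15d_al.h11r.Ns
import Pool.Agent.H.MP_59b15d_al.h73p.Cext
import Pool.Agent.H.MP_59b15d_al.h11c.Tree
import Pool.Agent.H.MP_59b15d_al.h73p.Gt

set_option autoImplicit false

/-!
# The hypothesis `GoodE` for `D < 2 ^ (m - 1)`
-/

namespace Pool.MP_59b15d_al.H40D

universe u v w x

open Module Pool.MP_59b15d_al.H95E Pool.MP_59b15d_al.H93E Pool.MP_59b15d_al.H11D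
open Pool.MP_59b15d_al.H60E Pool.MP_59b15d_al.H46U Pool.MP_59b15d_al.H47E
open Pool.MP_59b15d_al.H24T Pool.MP_59b15d_al.H76R Pool.MP_59b15d_al.H73E
open Pool.MP_59b15d_al.H60G Pool.MP_59b15d_al.H40L
open Pool.Agent.H.MP_59b15d_al.Lft Pool.Agent.H.MP_59b15d_al.H73P
open Pool.Agent.H.MP_59b15d_al.H52E (Tor)

variable {m : ℕ} {G : Type w} [Group G] {a b : Fin m → G} (h : IsSurf a b)
variable {F : Type u} [Field F] [IsAlgClosed F] {E : Type x} [Group E] {π : E →* MCG a b}
  {A B C S T : ℕ → E}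

/-- **The irreducible representations** of dimension less than `2 ^ (m - 1)` of a perfect central
extension of the mapping class group. -/
theorem goodE (hC : CE π) (hperf : ∀ x : E, x ∈ commutator E) (M : LM h π A B C S)
    (bT : ∀ q, 0 < q → q + 1 < m → Bp m A B C S q (T q)) (hm : 6 ≤ m) {D : ℕ}
    (hD : D < 2 ^ (m - 1)) : GoodE.{u, v, x} m E F D A T := by
  intro W _ _ _ τ hW hirr
  obtain ⟨⟨k, -, h1⟩, h2⟩ := pairs_mcg (ρ := τ) (T := T) h hm (lt_of_le_of_lt hW hD)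
    (fun z hz => schur_z hirr (hC.cen z hz)) M.pA M.pB M.pC M.pS M.lk M.ln bT M.oA M.oS
    (fun q h1 h2 => by
      obtain ⟨i, rfl⟩ : ∃ i, q = i + 1 := ⟨q - 1, by omega⟩
      exact M.lnz.star (by omega)) (gen_LM h hC hperf (by omega) M) hirr
  exact ⟨h2, k + 1, h1⟩

/-- The Torelli group lifts to elements which act trivially in all irreducible representations of
dimension less than `2 ^ (m - 1)`. -/
theorem T1_tor_two (hC : CE π) (hperf : ∀ x : E, x ∈ commutator E) (hm : 6 ≤ m) {D : ℕ}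
    (hD : D < 2 ^ (m - 1)) : Tor h ≤ (T1.{u, v, x} E F D).map π := by
  obtain ⟨A, B, C, S, M⟩ := exists_LM h hC (by omega)
  choose T hT using M.bp
  let T' : ℕ → E := fun q => if hq : q < m then T ⟨q, hq⟩ else 1
  have hT' : ∀ q (hq : q < m), T' q = T ⟨q, hq⟩ := fun q hq => dif_pos hq
  have bT : ∀ q, 0 < q → q + 1 < m → Bp m A B C S q (T' q) := fun q h1 h2 => by
    rw [hT' q (by omega)]
    exact (hT ⟨q, by omega⟩).2
  exact T1_tor h (T' := T') (by omega) hC M.lk (fun i _ => M.pA i) (fun q _ _ => by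
      rw [hT' q q.2]
      exact (hT q).1) (fun q h1 h2 => (bT q h1 h2).brT) (goodE h hC hperf M bT hm hD)

end Pool.MP_59b15d_al.H40D
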